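import Mathlib

/-!
Interface of the embedding module for MP_3fe3f2_lc.
-/

namespace Pool.Agent.Lib37.MAP

open Finset

universe u

/-- The cut distance of a weighted family of sets. -/
noncomputable def cutDist {M U : Type*} [Fintype U] [DecidableEq M] (T : U → Finset M)
    (w : U → ℝ) (i j : M) : ℝ :=
  ∑ u, w u * |(if i ∈ T u then (1 : ℝ) else 0) - (if j ∈ T u then (1 : ℝ) else 0)|

/-- Random cut families: every finite metric space with `n ≥ 2` points has a finite uniform
distribution on weighted families of sets such that every cut distance dominates the metric, the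
average cut distance is at most `K (log n)^2` times the metric, every point lies in at most
`h ≤ K log n` sets, there are at most `K n^2` sets, and all singletons occur with positive
weight. -/
def EmbStatement : Prop :=
  ∃ K : ℝ, ∀ (M : Type u) [Fintype M] [DecidableEq M] [MetricSpace M], 2 ≤ Fintype.card M →
    ∃ (Ω U : Type u) (_ : Fintype Ω) (_ : Nonempty Ω) (_ : Fintype U)
      (T : Ω → U → Finset M) (w : Ω → U → ℝ) (h : ℕ),
      (∀ ω u, 0 ≤ w ω u) ∧
      (∀ ω j, ∃ u, T ω u = {j} ∧ 0 < w ω u) ∧
      (∀ ω i, (univ.filter fun u => i ∈ T ω u).card ≤ h) ∧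
      ((h : ℝ) ≤ K * Real.log (Fintype.card M)) ∧
      ((Fintype.card U : ℝ) ≤ K * (Fintype.card M : ℝ) ^ 2) ∧
      (∀ ω i j, dist i j ≤ cutDist (T ω) (w ω) i j) ∧
      (∀ i j, ∑ ω, cutDist (T ω) (w ω) i j ≤
        (Fintype.card Ω : ℝ) * (K * (Real.log (Fintype.card M)) ^ 2 * dist i j))

end Pool.Agent.Lib37.MAP
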