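import Pool.Agent.Lib_helper37.MAP.Kernel

/-!
Averaged derivatives of Lipschitz functions against the product kernel.
-/

namespace Pool.Agent.Lib37.MAP

open MeasureTheory Finset Filter Topology

section deriv

variable {E : Type*} [NormedAddCommGroup E] [NormedSpace ℝ E]

lemma fderiv_tendsto {g : E → ℝ} {ζ η : E} (hg : DifferentiableAt ℝ g ζ) :
    Tendsto (fun n : ℕ => ((n : ℝ) + 1) • (g (ζ + ((n : ℝ) + 1)⁻¹ • η) - g ζ)) atTop
      (𝓝 (fderiv ℝ g ζ η)) := by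
  refine hg.hasFDerivAt.lim η (c := fun n : ℕ => (n : ℝ) + 1) (l := atTop) ?_
  have h3 : Tendsto (fun n : ℕ => (n : ℝ) + 1) atTop atTop :=
    tendsto_natCast_atTop_atTop.atTop_add tendsto_const_nhds
  exact tendsto_norm_atTop_atTop.comp h3

lemma fderiv_le_of {g : E → ℝ} {ζ η : E} {κ : ℝ} (hg : DifferentiableAt ℝ g ζ)
    (h : ∀ s : ℝ, 0 < s → s ≤ 1 → g (ζ + s • η) - g ζ ≤ s * κ) : fderiv ℝ g ζ η ≤ κ := by
  refine le_of_tendsto' (fderiv_tendsto (η := η) hg) fun n => ?_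
  have hn : (0 : ℝ) < (n : ℝ) + 1 := by positivity
  have h1 := h ((n : ℝ) + 1)⁻¹ (inv_pos.2 hn) (inv_le_one_of_one_le₀ (by
    have : (0 : ℝ) ≤ n := Nat.cast_nonneg n
    linarith))
  have h2 := mul_le_mul_of_nonneg_left h1 hn.le
  rw [smul_eq_mul]
  refine h2.trans (le_of_eq ?_)
  field_simp

lemma le_fderiv_of {g : E → ℝ} {ζ η : E} {κ : ℝ} (hg : DifferentiableAt ℝ g ζ)
    (h : ∀ s : ℝ, 0 < s → s ≤ 1 → s * κ ≤ g (ζ + s • η) - g ζ) : κ ≤ fderiv ℝ g ζ η := by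
  refine ge_of_tendsto' (fderiv_tendsto (η := η) hg) fun n => ?_
  have hn : (0 : ℝ) < (n : ℝ) + 1 := by positivity
  have h1 := h ((n : ℝ) + 1)⁻¹ (inv_pos.2 hn) (inv_le_one_of_one_le₀ (by
    have : (0 : ℝ) ≤ n := Nat.cast_nonneg n
    linarith))
  have h2 := mul_le_mul_of_nonneg_left h1 hn.le
  rw [smul_eq_mul]
  refine (le_of_eq ?_).trans h2
  field_simp

end deriv

variable {U : Type*} [Fintype U]

/-- averaged derivative -/
noncomputable def dav (ρ : ℝ) (g : (U → ℝ) → ℝ) (η : U → ℝ) : ℝ :=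
  (∫ ζ : U → ℝ, fderiv ℝ g ζ η * PP ρ ζ) / ∫ ζ : U → ℝ, PP ρ ζ

lemma integrable_dav {ρ : ℝ} {g : (U → ℝ) → ℝ} {C : NNReal} (hg : LipschitzWith C g)
    (η : U → ℝ) : Integrable (fun ζ : U → ℝ => fderiv ℝ g ζ η * PP ρ ζ) := by
  have h1 : Integrable (fun ζ : U → ℝ => (C * ‖η‖) * |PP ρ ζ|) :=
    (integrable_PP ρ).abs.const_mul _
  refine h1.mono' ((measurable_fderiv_apply_const ℝ g η).aestronglyMeasurable.mul
    (integrable_PP ρ).aestronglyMeasurable) (Eventually.of_forall fun ζ => ?_)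
  rw [norm_mul, Real.norm_eq_abs (PP ρ ζ)]
  refine mul_le_mul_of_nonneg_right ?_ (abs_nonneg _)
  refine ((fderiv ℝ g ζ).le_opNorm η).trans ?_
  exact mul_le_mul_of_nonneg_right (norm_fderiv_le_of_lipschitz ℝ hg) (norm_nonneg _)

lemma dav_zero_dir (ρ : ℝ) (g : (U → ℝ) → ℝ) : dav ρ g 0 = 0 := by
  unfold dav
  simp

lemma dav_add_dir {ρ : ℝ} {g : (U → ℝ) → ℝ} {C : NNReal} (hg : LipschitzWith C g)
    (η η' : U → ℝ) : dav ρ g (η + η') = dav ρ g η + dav ρ g η' := by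
  unfold dav
  rw [← add_div, ← integral_add (integrable_dav hg η) (integrable_dav hg η')]
  congr 2
  funext ζ
  rw [map_add, add_mul]

lemma dav_smul_dir {ρ : ℝ} {g : (U → ℝ) → ℝ} (c : ℝ) (η : U → ℝ) :
    dav ρ g (c • η) = c * dav ρ g η := by
  unfold dav
  rw [← mul_div_assoc, ← integral_const_mul]
  congr 2
  funext ζ
  rw [map_smul, smul_eq_mul, mul_assoc]

lemma dav_sum_dir {ρ : ℝ} {g : (U → ℝ) → ℝ} {C : NNReal} (hg : LipschitzWith C g)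
    {ι : Type*} (s : Finset ι) (c : ι → ℝ) (η : ι → U → ℝ) :
    dav ρ g (∑ j ∈ s, c j • η j) = ∑ j ∈ s, c j * dav ρ g (η j) := by
  classical
  induction s using Finset.induction_on with
  | empty => simp [dav_zero_dir]
  | insert j s hj ih =>
    rw [Finset.sum_insert hj, Finset.sum_insert hj, dav_add_dir hg, dav_smul_dir, ih]

lemma dav_sub {ρ : ℝ} {g g' : (U → ℝ) → ℝ} {C C' : NNReal} (hg : LipschitzWith C g)
    (hg' : LipschitzWith C' g') (η : U → ℝ) :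
    dav ρ (fun ζ => g ζ - g' ζ) η = dav ρ g η - dav ρ g' η := by
  unfold dav
  rw [← sub_div, ← integral_sub (integrable_dav hg η) (integrable_dav hg' η)]
  congr 1
  refine integral_congr_ae ?_
  filter_upwards [hg.ae_differentiableAt, hg'.ae_differentiableAt] with ζ h1 h2
  rw [fderiv_fun_sub h1 h2, ContinuousLinearMap.sub_apply, sub_mul]

/-- the (open) unit box -/
def Box (ζ : U → ℝ) : Prop := ∀ v, 0 < ζ v ∧ ζ v < 1

lemma isOpen_box : IsOpen {ζ : U → ℝ | Box ζ} := by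
  have : {ζ : U → ℝ | Box ζ} = Set.pi Set.univ (fun _ => Set.Ioo (0 : ℝ) 1) := by
    ext ζ
    simp [Box, Set.mem_pi]
  rw [this]
  exact isOpen_set_pi Set.finite_univ fun _ _ => isOpen_Ioo

lemma dav_congr {ρ : ℝ} {g g' : (U → ℝ) → ℝ} (h : ∀ ζ, Box ζ → g ζ = g' ζ) (η : U → ℝ) :
    dav ρ g η = dav ρ g' η := by
  unfold dav
  congr 2
  funext ζ
  by_cases hP : PP ρ ζ = 0
  · rw [hP]; simp
  · have hb : Box ζ := PP_supp hP
    have h1 : g =ᶠ[𝓝 ζ] g' := by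
      filter_upwards [isOpen_box.mem_nhds hb] with ξ hξ
      exact h ξ hξ
    rw [h1.fderiv_eq]

lemma dav_le {ρ : ℝ} (hρ : 0 ≤ ρ) (hZ : 0 < ∫ ζ : U → ℝ, PP ρ ζ) {g : (U → ℝ) → ℝ}
    {C : NNReal} (hg : LipschitzWith C g) {η : U → ℝ} {κ : ℝ}
    (h : ∀ ζ, ∀ s : ℝ, 0 < s → s ≤ 1 → g (ζ + s • η) - g ζ ≤ s * κ) : dav ρ g η ≤ κ := by
  unfold dav
  rw [div_le_iff₀ hZ, ← integral_const_mul]
  refine integral_mono_ae (integrable_dav hg η) ((integrable_PP ρ).const_mul κ) ?_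
  filter_upwards [hg.ae_differentiableAt] with ζ h1
  exact mul_le_mul_of_nonneg_right (fderiv_le_of h1 (h ζ)) (PP_nonneg hρ ζ)

lemma le_dav {ρ : ℝ} (hρ : 0 ≤ ρ) (hZ : 0 < ∫ ζ : U → ℝ, PP ρ ζ) {g : (U → ℝ) → ℝ}
    {C : NNReal} (hg : LipschitzWith C g) {η : U → ℝ} {κ : ℝ}
    (h : ∀ ζ, ∀ s : ℝ, 0 < s → s ≤ 1 → s * κ ≤ g (ζ + s • η) - g ζ) : κ ≤ dav ρ g η := by
  unfold dav
  rw [le_div_iff₀ hZ, ← integral_const_mul]
  refine integral_mono_ae ((integrable_PP ρ).const_mul κ) (integrable_dav hg η) ?_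
  filter_upwards [hg.ae_differentiableAt] with ζ h1
  exact mul_le_mul_of_nonneg_right (le_fderiv_of h1 (h ζ)) (PP_nonneg hρ ζ)

lemma dav_eq {ρ : ℝ} (hρ : 0 ≤ ρ) (hZ : 0 < ∫ ζ : U → ℝ, PP ρ ζ) {g : (U → ℝ) → ℝ}
    {C : NNReal} (hg : LipschitzWith C g) {η : U → ℝ} {κ : ℝ}
    (h : ∀ ζ, ∀ s : ℝ, 0 < s → s ≤ 1 → g (ζ + s • η) - g ζ = s * κ) : dav ρ g η = κ :=
  le_antisymm (dav_le hρ hZ hg fun ζ s h0 h1 => (h ζ s h0 h1).le)
    (le_dav hρ hZ hg fun ζ s h0 h1 => (h ζ s h0 h1).ge)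

/-- averaged values -/
noncomputable def vav (ρ : ℝ) (g : (U → ℝ) → ℝ) : ℝ :=
  (∫ ζ : U → ℝ, g ζ * PP ρ ζ) / ∫ ζ : U → ℝ, PP ρ ζ

/-- averaged values for the kernels with one uniform coordinate -/
noncomputable def uav [DecidableEq U] (ρ : ℝ) (g : (U → ℝ) → ℝ) (u : U) : ℝ :=
  (∫ ζ : U → ℝ, g ζ * PU ρ u ζ) / ∫ ζ : U → ℝ, PP ρ ζ

lemma integrable_vav {ρ : ℝ} {g : (U → ℝ) → ℝ} {C : NNReal} (hg : LipschitzWith C g) :
    Integrable (fun ζ : U → ℝ => g ζ * PP ρ ζ) :=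
  integrable_lip_mul hg (integrable_PP ρ) fun ζ h => norm_le_one_of_box (PP_supp h)

lemma integrable_uav [DecidableEq U] {ρ : ℝ} {g : (U → ℝ) → ℝ} {C : NNReal}
    (hg : LipschitzWith C g) (u : U) :
    Integrable (fun ζ : U → ℝ => g ζ * PU ρ u ζ) :=
  integrable_lip_mul hg (integrable_PU ρ u) fun ζ h => norm_le_one_of_box (PU_supp h)

lemma vav_sub {ρ : ℝ} {g g' : (U → ℝ) → ℝ} {C C' : NNReal} (hg : LipschitzWith C g)
    (hg' : LipschitzWith C' g') : vav ρ (fun ζ => g ζ - g' ζ) = vav ρ g - vav ρ g' := by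
  unfold vav
  rw [← sub_div, ← integral_sub (integrable_vav hg) (integrable_vav hg')]
  congr 2
  funext ζ
  rw [sub_mul]

lemma uav_sub [DecidableEq U] {ρ : ℝ} {g g' : (U → ℝ) → ℝ} {C C' : NNReal}
    (hg : LipschitzWith C g) (hg' : LipschitzWith C' g') (u : U) :
    uav ρ (fun ζ => g ζ - g' ζ) u = uav ρ g u - uav ρ g' u := by
  unfold uav
  rw [← sub_div, ← integral_sub (integrable_uav hg u) (integrable_uav hg' u)]
  congr 2
  funext ζ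
  rw [sub_mul]

lemma vav_le {ρ : ℝ} (hρ : 0 ≤ ρ) (hZ : 0 < ∫ ζ : U → ℝ, PP ρ ζ) {g : (U → ℝ) → ℝ}
    {C : NNReal} (hg : LipschitzWith C g) {κ : ℝ} (h : ∀ ζ, Box ζ → g ζ ≤ κ) :
    vav ρ g ≤ κ := by
  unfold vav
  rw [div_le_iff₀ hZ, ← integral_const_mul]
  refine integral_mono (integrable_vav hg) ((integrable_PP ρ).const_mul κ) fun ζ => ?_
  by_cases hP : PP ρ ζ = 0
  · simp only [hP]; simp
  · exact mul_le_mul_of_nonneg_right (h ζ (PP_supp hP)) (PP_nonneg hρ ζ)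

lemma vav_nonneg {ρ : ℝ} (hρ : 0 ≤ ρ) {g : (U → ℝ) → ℝ} (h : ∀ ζ, Box ζ → 0 ≤ g ζ) :
    0 ≤ vav ρ g := by
  unfold vav
  refine div_nonneg (integral_nonneg fun ζ => ?_) (integral_nonneg fun ζ => PP_nonneg hρ ζ)
  by_cases hP : PP ρ ζ = 0
  · simp only [hP]; simp
  · exact mul_nonneg (h ζ (PP_supp hP)) (PP_nonneg hρ ζ)

lemma uav_nonneg [DecidableEq U] {ρ : ℝ} (hρ : 0 ≤ ρ) {g : (U → ℝ) → ℝ}
    (h : ∀ ζ, Box ζ → 0 ≤ g ζ) (u : U) : 0 ≤ uav ρ g u := by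
  unfold uav
  refine div_nonneg (integral_nonneg fun ζ => ?_) (integral_nonneg fun ζ => PP_nonneg hρ ζ)
  by_cases hP : PU ρ u ζ = 0
  · simp only [hP]; simp
  · exact mul_nonneg (h ζ (PU_supp hP)) (PU_nonneg hρ u ζ)

lemma uav_le [DecidableEq U] {ρ : ℝ} (hρ : 0 ≤ ρ) (hA : 0 < ∫ z, pk ρ z) {g : (U → ℝ) → ℝ}
    {C : NNReal} (hg : LipschitzWith C g) {κ : ℝ} (h : ∀ ζ, Box ζ → g ζ ≤ κ) (u : U) :
    uav ρ g u ≤ κ / ∫ z, pk ρ z := by
  have hZ : 0 < ∫ ζ : U → ℝ, PP ρ ζ := by rw [integral_PP]; positivity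
  unfold uav
  rw [div_le_div_iff₀ hZ hA]
  have h1 : ∫ ζ : U → ℝ, g ζ * PU ρ u ζ ≤ ∫ ζ : U → ℝ, κ * PU ρ u ζ := by
    refine integral_mono (integrable_uav hg u) ((integrable_PU ρ u).const_mul κ) fun ζ => ?_
    by_cases hP : PU ρ u ζ = 0
    · simp only [hP]; simp
    · exact mul_le_mul_of_nonneg_right (h ζ (PU_supp hP)) (PU_nonneg hρ u ζ)
  rw [integral_const_mul] at h1
  have h2 := mul_le_mul_of_nonneg_right h1 hA.le
  rw [mul_assoc, integral_PU, ← integral_PP] at h2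
  exact h2

/-- the basic inequality for averages -/
lemma dav_kernel [DecidableEq U] {ρ : ℝ} (hρ : 0 ≤ ρ) (hZ : 0 < ∫ ζ : U → ℝ, PP ρ ζ)
    {g : (U → ℝ) → ℝ} {C : NNReal} (hg : LipschitzWith C g) (h0 : ∀ ζ, 0 ≤ g ζ) (u : U) :
    -dav ρ g (Pi.single u 1) ≤ ρ * (vav ρ g + uav ρ g u) := by
  have h1 := kernel_ineq hρ hg h0 u
  unfold dav vav uav
  rw [← add_div, ← neg_div, ← mul_div_assoc, div_le_div_iff_of_pos_right hZ,
    ← integral_add (integrable_vav hg) (integrable_uav hg u)]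
  refine h1.trans (le_of_eq ?_)
  congr 2
  funext ζ
  rw [mul_add]

end Pool.Agent.Lib37.MAP
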