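import Pool.Agent.Lib_helper37.MAP.Phi

/-!
Dual work functions: the class `Good` and the step operator.
-/

namespace Pool.Agent.Lib37.MAP

open Finset

variable {M : Type*} [Fintype M]

/-- monotone, translation equivariant, convex and submodular functions -/
structure Good (G : (M → ℝ) → ℝ) : Prop where
  mono : ∀ a b : M → ℝ, a ≤ b → G a ≤ G b
  trans : ∀ (a : M → ℝ) (c : ℝ), G (fun i => a i + c) = G a + c
  conv : ConvexOn ℝ Set.univ G
  subm : ∀ a b : M → ℝ, G (a ⊔ b) + G (a ⊓ b) ≤ G a + G b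

lemma Good.sub_le {G : (M → ℝ) → ℝ} (hG : Good G) (a b : M → ℝ) : G a - G b ≤ dist a b := by
  have h : a ≤ fun i => b i + dist a b := by
    intro i
    have h1 := dist_le_pi_dist a b i
    rw [Real.dist_eq] at h1
    have h2 := le_abs_self (a i - b i)
    simp only
    linarith
  have h1 := hG.mono _ _ h
  rw [hG.trans] at h1
  linarith

lemma Good.abs_sub_le {G : (M → ℝ) → ℝ} (hG : Good G) (a b : M → ℝ) : |G a - G b| ≤ dist a b := by
  rw [abs_le]
  have h1 := hG.sub_le a b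
  have h2 := hG.sub_le b a
  rw [dist_comm] at h2
  constructor <;> linarith

lemma Good.lipschitz {G : (M → ℝ) → ℝ} (hG : Good G) : LipschitzWith 1 G := by
  refine LipschitzWith.of_dist_le_mul fun a b => ?_
  rw [Real.dist_eq]
  simpa using hG.abs_sub_le a b

/-- linear functions given by allocations are good -/
lemma good_linear {x : M → ℝ} (hx : x ∈ stdSimplex ℝ M) : Good (fun θ : M → ℝ => ∑ i, θ i * x i) := by
  refine ⟨?_, ?_, ?_, ?_⟩
  · intro a b hab
    exact Finset.sum_le_sum fun i _ => mul_le_mul_of_nonneg_right (hab i) (hx.1 i)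
  · intro a c
    simp only [add_mul, Finset.sum_add_distrib, ← Finset.mul_sum, hx.2, mul_one]
  · refine ⟨convex_univ, ?_⟩
    intro a _ b _ p q _ _ _
    simp only [Pi.add_apply, Pi.smul_apply, smul_eq_mul, Finset.mul_sum, ← Finset.sum_add_distrib]
    exact le_of_eq (Finset.sum_congr rfl fun i _ => by ring)
  · intro a b
    simp only [Pi.sup_apply, Pi.inf_apply, ← Finset.sum_add_distrib]
    refine le_of_eq (Finset.sum_congr rfl fun i _ => ?_)
    rw [← add_mul, ← add_mul, max_add_min]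

/-- functions that are `1`-Lipschitz for `D` -/
def Bset (D : M → M → ℝ) : Set (M → ℝ) := {θ | ∀ i j, θ i - θ j ≤ D i j}

variable {D : M → M → ℝ}

omit [Fintype M] in
lemma bset_sup {a b : M → ℝ} (ha : a ∈ Bset D) (hb : b ∈ Bset D) : a ⊔ b ∈ Bset D := by
  intro i j
  have h1 := ha i j
  have h2 := hb i j
  have h3 : a j ≤ (a ⊔ b) j := le_sup_left
  have h4 : b j ≤ (a ⊔ b) j := le_sup_right
  have h5 : (a ⊔ b) i = a i ⊔ b i := rfl
  rw [h5]
  rcases le_total (a i) (b i) with h | h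
  · rw [sup_eq_right.2 h]; linarith
  · rw [sup_eq_left.2 h]; linarith

omit [Fintype M] in
lemma bset_inf {a b : M → ℝ} (ha : a ∈ Bset D) (hb : b ∈ Bset D) : a ⊓ b ∈ Bset D := by
  intro i j
  have h1 := ha i j
  have h2 := hb i j
  have h3 : (a ⊓ b) i ≤ a i := inf_le_left
  have h4 : (a ⊓ b) i ≤ b i := inf_le_right
  have h5 : (a ⊓ b) j = a j ⊓ b j := rfl
  rw [h5]
  rcases le_total (a j) (b j) with h | h
  · rw [inf_eq_left.2 h]; linarith
  · rw [inf_eq_right.2 h]; linarith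

omit [Fintype M] in
lemma bset_add_const {a : M → ℝ} (ha : a ∈ Bset D) (c : ℝ) : (fun i => a i + c) ∈ Bset D := by
  intro i j
  have h1 := ha i j
  simp only
  linarith

omit [Fintype M] in
lemma bset_convex {a b : M → ℝ} (ha : a ∈ Bset D) (hb : b ∈ Bset D) {p q : ℝ} (hp : 0 ≤ p)
    (hq : 0 ≤ q) (hpq : p + q = 1) : p • a + q • b ∈ Bset D := by
  intro i j
  have h1 := mul_le_mul_of_nonneg_left (ha i j) hp
  have h2 := mul_le_mul_of_nonneg_left (hb i j) hq
  simp only [Pi.add_apply, Pi.smul_apply, smul_eq_mul]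
  have h3 : D i j = p * D i j + q * D i j := by rw [← add_mul, hpq, one_mul]
  rw [h3]
  linarith

/-- the step operator on dual work functions -/
noncomputable def step (D : M → M → ℝ) (G : (M → ℝ) → ℝ) (f : M → ℝ → ℝ) (θ : M → ℝ) : ℝ :=
  ⨅ τ : {τ : M → ℝ // τ ∈ Bset D ∧ θ ≤ τ}, (G τ.1 + ∑ i, f i (τ.1 i - θ i))

section step

variable {G : (M → ℝ) → ℝ} {f : M → ℝ → ℝ}

lemma exists_above (hD : ∀ i j, 0 ≤ D i j) (θ : M → ℝ) : ∃ τ : M → ℝ, τ ∈ Bset D ∧ θ ≤ τ := by
  refine ⟨fun _ => ‖θ‖, ?_, ?_⟩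
  · intro i j
    simpa using hD i j
  · intro i
    have h1 := norm_le_pi_norm θ i
    rw [Real.norm_eq_abs] at h1
    exact (le_abs_self _).trans h1

lemma step_bdd (hG : Good G) (hf : ∀ i, Pen (f i)) (θ : M → ℝ) :
    BddBelow (Set.range fun τ : {τ : M → ℝ // τ ∈ Bset D ∧ θ ≤ τ} =>
      (G τ.1 + ∑ i, f i (τ.1 i - θ i))) := by
  choose K hK using fun i => (hf i).lower
  refine ⟨G θ + ∑ i, (-K i), ?_⟩
  rintro _ ⟨τ, rfl⟩
  exact add_le_add (hG.mono _ _ τ.2.2) (Finset.sum_le_sum fun i _ => hK i _)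

lemma step_le (hG : Good G) (hf : ∀ i, Pen (f i)) {θ τ : M → ℝ} (h1 : τ ∈ Bset D) (h2 : θ ≤ τ) :
    step D G f θ ≤ G τ + ∑ i, f i (τ i - θ i) :=
  ciInf_le (step_bdd hG hf θ) (⟨τ, h1, h2⟩ : {τ : M → ℝ // τ ∈ Bset D ∧ θ ≤ τ})

lemma le_step (hD : ∀ i j, 0 ≤ D i j) {θ : M → ℝ} {x : ℝ}
    (h : ∀ τ ∈ Bset D, θ ≤ τ → x ≤ G τ + ∑ i, f i (τ i - θ i)) : x ≤ step D G f θ := by
  obtain ⟨τ, h1, h2⟩ := exists_above hD θ
  haveI : Nonempty {τ : M → ℝ // τ ∈ Bset D ∧ θ ≤ τ} := ⟨⟨τ, h1, h2⟩⟩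
  exact le_ciInf fun τ => h τ.1 τ.2.1 τ.2.2

lemma step_near (hD : ∀ i j, 0 ≤ D i j) (θ : M → ℝ) {ε : ℝ} (hε : 0 < ε) :
    ∃ τ ∈ Bset D, θ ≤ τ ∧ G τ + ∑ i, f i (τ i - θ i) < step D G f θ + ε := by
  obtain ⟨τ, h1, h2⟩ := exists_above hD θ
  haveI : Nonempty {τ : M → ℝ // τ ∈ Bset D ∧ θ ≤ τ} := ⟨⟨τ, h1, h2⟩⟩
  obtain ⟨σ, hσ⟩ := exists_lt_of_ciInf_lt (lt_add_of_pos_right (step D G f θ) hε)
  exact ⟨σ.1, σ.2.1, σ.2.2, hσ⟩

lemma good_step (hD : ∀ i j, 0 ≤ D i j) (hG : Good G) (hf : ∀ i, Pen (f i)) :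
    Good (step D G f) := by
  refine ⟨?_, ?_, ?_, ?_⟩
  · intro a b hab
    refine le_step hD fun τ h1 h2 => ?_
    refine (step_le hG hf h1 (hab.trans h2)).trans ?_
    refine add_le_add le_rfl (Finset.sum_le_sum fun i _ => (hf i).anti ?_)
    have := hab i
    linarith
  · intro a c
    apply le_antisymm
    · rw [← sub_le_iff_le_add]
      refine le_step hD fun τ h1 h2 => ?_
      have h3 := step_le (θ := fun i => a i + c) hG hf (bset_add_const h1 c)
        (fun i => by have := h2 i; simp only; linarith)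
      rw [hG.trans] at h3
      have h4 : ∀ i, τ i + c - (a i + c) = τ i - a i := fun i => by ring
      simp only [h4] at h3
      linarith
    · refine le_step hD fun τ h1 h2 => ?_
      have h3 := step_le (θ := a) hG hf (bset_add_const h1 (-c))
        (fun i => by have := h2 i; simp only at this ⊢; linarith)
      rw [hG.trans] at h3
      have h4 : ∀ i, τ i + -c - a i = τ i - (a i + c) := fun i => by ring
      simp only [h4] at h3
      linarith
  · refine ⟨convex_univ, ?_⟩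
    intro a _ b _ p q hp hq hpq
    simp only [smul_eq_mul]
    refine le_of_forall_pos_le_add fun ε hε => ?_
    obtain ⟨τ, h1, h2, h3⟩ := step_near (G := G) (f := f) hD a hε
    obtain ⟨σ, h4, h5, h6⟩ := step_near (G := G) (f := f) hD b hε
    have h7 : p • a + q • b ≤ p • τ + q • σ := by
      intro i
      simp only [Pi.add_apply, Pi.smul_apply, smul_eq_mul]
      exact add_le_add (mul_le_mul_of_nonneg_left (h2 i) hp)
        (mul_le_mul_of_nonneg_left (h5 i) hq)
    have h8 := step_le hG hf (bset_convex h1 h4 hp hq hpq) h7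
    have h9 := hG.conv.2 (Set.mem_univ τ) (Set.mem_univ σ) hp hq hpq
    simp only [smul_eq_mul] at h9
    have h10 : ∑ i, f i ((p • τ + q • σ) i - (p • a + q • b) i) ≤
        p * (∑ i, f i (τ i - a i)) + q * (∑ i, f i (σ i - b i)) := by
      rw [Finset.mul_sum, Finset.mul_sum, ← Finset.sum_add_distrib]
      refine Finset.sum_le_sum fun i _ => ?_
      have h11 := (hf i).conv.2 (Set.mem_univ (τ i - a i)) (Set.mem_univ (σ i - b i)) hp hq hpq
      simp only [smul_eq_mul] at h11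
      have h12 : (p • τ + q • σ) i - (p • a + q • b) i = p * (τ i - a i) + q * (σ i - b i) := by
        simp only [Pi.add_apply, Pi.smul_apply, smul_eq_mul]; ring
      rw [h12]
      exact h11
    have h13 := mul_le_mul_of_nonneg_left h3.le hp
    have h14 := mul_le_mul_of_nonneg_left h6.le hq
    have h15 : p * ε + q * ε = ε := by rw [← add_mul, hpq, one_mul]
    nlinarith
  · intro a b
    refine le_of_forall_pos_le_add fun ε hε => ?_
    obtain ⟨τ, h1, h2, h3⟩ := step_near (G := G) (f := f) hD a (half_pos hε)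
    obtain ⟨σ, h4, h5, h6⟩ := step_near (G := G) (f := f) hD b (half_pos hε)
    have h7 := step_le hG hf (bset_sup h1 h4) (sup_le_sup h2 h5)
    have h8 := step_le hG hf (bset_inf h1 h4) (inf_le_inf h2 h5)
    have h9 := hG.subm τ σ
    have h10 : ∑ i, f i ((τ ⊔ σ) i - (a ⊔ b) i) + ∑ i, f i ((τ ⊓ σ) i - (a ⊓ b) i) ≤
        ∑ i, f i (τ i - a i) + ∑ i, f i (σ i - b i) := by
      rw [← Finset.sum_add_distrib, ← Finset.sum_add_distrib]
      exact Finset.sum_le_sum fun i _ => convex_sub_sup_inf (hf i).conv _ _ _ _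
    linarith

/-- weak duality -/
lemma step_weak (hD : ∀ i j, 0 ≤ D i j) (hDs : ∀ i j, D i j = D j i) {y y' : M → ℝ}
    {γ : M → M → ℝ} {c : M → ℝ → ℝ} (hc : ∀ i, ∀ s ∈ Set.Icc (0 : ℝ) 1, 0 ≤ c i s)
    (hy' : y' ∈ stdSimplex ℝ M) (hγ0 : ∀ i j, 0 ≤ γ i j) (hrow : ∀ i, ∑ j, γ i j = y i)
    (hcol : ∀ j, ∑ i, γ i j = y' j) {W : ℝ}
    (h : ∀ θ : M → ℝ, ∑ i, θ i * y i - W ≤ G θ) (θ : M → ℝ) :
    ∑ i, θ i * y' i - (W + (∑ i, ∑ j, γ i j * D i j + ∑ i, c i (y' i))) ≤
      step D G (fun i => phi (c i)) θ := by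
  refine le_step hD fun τ h1 h2 => ?_
  have h3 := h τ
  have h4 : ∑ i, τ i * y' i - ∑ i, ∑ j, γ i j * D i j ≤ ∑ i, τ i * y i := by
    have e1 : ∑ i, τ i * y i = ∑ i, ∑ j, τ i * γ i j := by
      refine Finset.sum_congr rfl fun i _ => ?_
      rw [← Finset.mul_sum, hrow]
    have e2 : ∑ i, τ i * y' i = ∑ i, ∑ j, τ j * γ i j := by
      rw [Finset.sum_comm]
      refine Finset.sum_congr rfl fun i _ => ?_
      rw [← Finset.mul_sum, hcol]
    rw [e1, e2, ← Finset.sum_sub_distrib]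
    refine Finset.sum_le_sum fun i _ => ?_
    rw [← Finset.sum_sub_distrib]
    refine Finset.sum_le_sum fun j _ => ?_
    have h5 := mul_le_mul_of_nonneg_right (h1 j i) (hγ0 i j)
    rw [hDs j i] at h5
    nlinarith
  have h5 : ∑ i, (-((τ i - θ i) * y' i) - c i (y' i)) ≤ ∑ i, phi (c i) (τ i - θ i) := by
    refine Finset.sum_le_sum fun i _ => le_phi (hc i) _ ?_
    refine ⟨hy'.1 i, ?_⟩
    rw [← hy'.2]
    exact Finset.single_le_sum (fun j _ => hy'.1 j) (Finset.mem_univ i)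
  have h6 : ∑ i, (-((τ i - θ i) * y' i) - c i (y' i)) =
      ∑ i, θ i * y' i - ∑ i, τ i * y' i - ∑ i, c i (y' i) := by
    rw [← Finset.sum_sub_distrib, ← Finset.sum_sub_distrib]
    exact Finset.sum_congr rfl fun i _ => by ring
  linarith

/-- with no penalty nothing changes on `Bset D` -/
lemma step_zero (hD : ∀ i j, 0 ≤ D i j) (hG : Good G) {θ : M → ℝ} (hθ : θ ∈ Bset D) :
    step D G (fun _ _ => 0) θ = G θ := by
  apply le_antisymm
  · have h := step_le (f := fun (_ : M) (_ : ℝ) => (0 : ℝ)) hG (fun _ => pen_zero) hθ le_rfl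
    simpa using h
  · refine le_step hD fun τ _ h2 => ?_
    simpa using hG.mono _ _ h2

lemma step_antitone_pen (hD : ∀ i j, 0 ≤ D i j) (hG : Good G) (hf : ∀ i, Pen (f i))
    {g : M → ℝ → ℝ} (hgf : ∀ i b, 0 ≤ b → f i b ≤ g i b) (θ : M → ℝ) :
    step D G f θ ≤ step D G g θ := by
  refine le_step hD fun τ h1 h2 => ?_
  refine (step_le hG hf h1 h2).trans ?_
  refine add_le_add le_rfl (Finset.sum_le_sum fun i _ => hgf i _ ?_)
  have := h2 i
  linarith

/-- the key monotonicity: adding a penalty at `i` changes the function by an amount which is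
monotone in the other coordinates -/
lemma step_cross (hD : ∀ i j, 0 ≤ D i j) (hG : Good G) {g : M → ℝ → ℝ}
    (hf : ∀ i, Pen (f i)) (hg : ∀ i, Pen (g i)) {i : M} (hfi : ∀ b, f i b = 0)
    (hfg : ∀ j, j ≠ i → g j = f j) {θ θ' : M → ℝ} (hle : θ ≤ θ') (hi : θ i = θ' i) :
    step D G g θ' + step D G f θ ≤ step D G f θ' + step D G g θ := by
  refine le_of_forall_pos_le_add fun ε hε => ?_
  obtain ⟨σ, h1, h2, h3⟩ := step_near (G := G) (f := f) hD θ' (half_pos hε)
  obtain ⟨τ, h4, h5, h6⟩ := step_near (G := G) (f := g) hD θ (half_pos hε)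
  have h7 := step_le hG hg (θ := θ') (bset_sup h1 h4) (h2.trans le_sup_left)
  have h8 := step_le hG hf (θ := θ) (bset_inf h1 h4) (le_inf (hle.trans h2) h5)
  have h9 := hG.subm σ τ
  have h10 : ∑ j, g j ((σ ⊔ τ) j - θ' j) + ∑ j, f j ((σ ⊓ τ) j - θ j) ≤
      ∑ j, f j (σ j - θ' j) + ∑ j, g j (τ j - θ j) := by
    rw [← Finset.sum_add_distrib, ← Finset.sum_add_distrib]
    refine Finset.sum_le_sum fun j _ => ?_
    by_cases hj : j = i
    · subst hj
      rw [hfi, hfi]
      have h11 : τ j - θ j ≤ (σ ⊔ τ) j - θ' j := by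
        have : τ j ≤ (σ ⊔ τ) j := le_sup_right
        rw [← hi]
        linarith
      have := (hg j).anti h11
      linarith
    · rw [hfg j hj]
      have h11 := convex_sub_sup_inf (hf j).conv (σ j) (τ j) (θ' j) (θ j)
      rw [sup_eq_left.2 (hle j), inf_eq_right.2 (hle j)] at h11
      exact h11
  linarith

/-- supergradient type inequality used for the service cost -/
lemma step_shift (hG : Good G) (hf : ∀ i, Pen (f i)) {θ : M → ℝ}
    (hθ : θ ∈ Bset D) {b : M → ℝ} (hb : 0 ≤ b) :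
    step D G f (θ - b) ≤ G θ + ∑ i, f i (b i) := by
  have h := step_le hG hf (θ := θ - b) hθ (sub_le_self _ hb)
  have h1 : ∀ i, θ i - (θ - b) i = b i := fun i => by simp
  simpa only [h1] using h

end step

end Pool.Agent.Lib37.MAP
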