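import Pool.Agent.Lib_helper37.MAP.Defs

/-!
Elementary facts on the transport cost.
-/

namespace Pool.Agent.Lib37.MAP

open Finset

variable {M : Type*} [Fintype M]

/-- cost of a plan -/
noncomputable def planCost (d : M → M → ℝ) (γ : M → M → ℝ) : ℝ := ∑ i, ∑ j, γ i j * d i j

lemma planCost_nonneg {d : M → M → ℝ} (hd : ∀ i j, 0 ≤ d i j) {γ : M → M → ℝ}
    (hγ : ∀ i j, 0 ≤ γ i j) : 0 ≤ planCost d γ :=
  Finset.sum_nonneg fun i _ => Finset.sum_nonneg fun j _ => mul_nonneg (hγ i j) (hd i j)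

lemma transport_bdd {d : M → M → ℝ} (hd : ∀ i j, 0 ≤ d i j) (x y : M → ℝ) :
    BddBelow {c : ℝ | ∃ γ : M → M → ℝ, IsPlan x y γ ∧ c = ∑ i, ∑ j, γ i j * d i j} := by
  refine ⟨0, ?_⟩
  rintro _ ⟨γ, hγ, rfl⟩
  exact planCost_nonneg hd hγ.nonneg

lemma transport_le {d : M → M → ℝ} (hd : ∀ i j, 0 ≤ d i j) {x y : M → ℝ} {γ : M → M → ℝ}
    (hγ : IsPlan x y γ) : transport d x y ≤ planCost d γ :=
  csInf_le (transport_bdd hd x y) ⟨γ, hγ, rfl⟩

lemma isPlan_prod {x y : M → ℝ} (hx : x ∈ stdSimplex ℝ M) (hy : y ∈ stdSimplex ℝ M) :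
    IsPlan x y (fun i j => x i * y j) := by
  refine ⟨fun i j => mul_nonneg (hx.1 i) (hy.1 j), fun i => ?_, fun j => ?_⟩
  · rw [← Finset.mul_sum, hy.2, mul_one]
  · rw [← Finset.sum_mul, hx.2, one_mul]

lemma exists_plan {d : M → M → ℝ} {x y : M → ℝ} (hx : x ∈ stdSimplex ℝ M)
    (hy : y ∈ stdSimplex ℝ M) {ε : ℝ} (hε : 0 < ε) :
    ∃ γ : M → M → ℝ, IsPlan x y γ ∧ planCost d γ < transport d x y + ε := by
  have hne : {c : ℝ | ∃ γ : M → M → ℝ, IsPlan x y γ ∧ c = ∑ i, ∑ j, γ i j * d i j}.Nonempty :=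
    ⟨_, _, isPlan_prod hx hy, rfl⟩
  obtain ⟨c, ⟨γ, hγ, rfl⟩, hc⟩ := exists_lt_of_csInf_lt hne
    (lt_add_of_pos_right (transport d x y) hε)
  exact ⟨γ, hγ, hc⟩

lemma transport_nonneg {d : M → M → ℝ} (hd : ∀ i j, 0 ≤ d i j) (x y : M → ℝ) :
    0 ≤ transport d x y := by
  refine Real.sInf_nonneg ?_
  rintro _ ⟨γ, hγ, rfl⟩
  exact planCost_nonneg hd hγ.nonneg

lemma transport_mono {d d' : M → M → ℝ} (hd : ∀ i j, 0 ≤ d i j) (hdd : ∀ i j, d i j ≤ d' i j)
    {x y : M → ℝ} (hx : x ∈ stdSimplex ℝ M) (hy : y ∈ stdSimplex ℝ M) :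
    transport d x y ≤ transport d' x y := by
  refine le_of_forall_pos_le_add fun ε hε => ?_
  obtain ⟨γ, hγ, h⟩ := exists_plan (d := d') hx hy hε
  refine (transport_le hd hγ).trans (le_trans ?_ h.le)
  exact Finset.sum_le_sum fun i _ => Finset.sum_le_sum fun j _ =>
    mul_le_mul_of_nonneg_left (hdd i j) (hγ.nonneg i j)

/-- gluing of transport plans -/
lemma transport_triangle {d : M → M → ℝ} (hd : ∀ i j, 0 ≤ d i j)
    (htri : ∀ i j k, d i k ≤ d i j + d j k) {x y z : M → ℝ} (hx : x ∈ stdSimplex ℝ M)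
    (hy : y ∈ stdSimplex ℝ M) (hz : z ∈ stdSimplex ℝ M) :
    transport d x z ≤ transport d x y + transport d y z := by
  refine le_of_forall_pos_le_add fun ε hε => ?_
  obtain ⟨γ, hγ, h1⟩ := exists_plan (d := d) hx hy (half_pos hε)
  obtain ⟨δ, hδ, h2⟩ := exists_plan (d := d) hy hz (half_pos hε)
  -- if `y j = 0` then all `γ i j` and `δ j k` vanish
  have hγ0 : ∀ i j, y j = 0 → γ i j = 0 := by
    intro i j hj
    have h3 := hγ.col j
    rw [hj, Finset.sum_eq_zero_iff_of_nonneg (fun i _ => hγ.nonneg i j)] at h3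
    exact h3 i (Finset.mem_univ i)
  have hδ0 : ∀ j k, y j = 0 → δ j k = 0 := by
    intro j k hj
    have h3 := hδ.row j
    rw [hj, Finset.sum_eq_zero_iff_of_nonneg (fun i _ => hδ.nonneg j i)] at h3
    exact h3 k (Finset.mem_univ k)
  have e1 : ∀ i j, ∑ k, γ i j * δ j k / y j = γ i j := by
    intro i j
    by_cases hj : y j = 0
    · simp [hγ0 i j hj]
    · rw [← Finset.sum_div, ← Finset.mul_sum, hδ.row, mul_div_assoc, div_self hj, mul_one]
  have e2 : ∀ j k, ∑ i, γ i j * δ j k / y j = δ j k := by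
    intro j k
    by_cases hj : y j = 0
    · simp [hδ0 j k hj]
    · rw [← Finset.sum_div, ← Finset.sum_mul, hγ.col, mul_comm, mul_div_assoc, div_self hj,
        mul_one]
  have hn : ∀ i j k, 0 ≤ γ i j * δ j k / y j := fun i j k =>
    div_nonneg (mul_nonneg (hγ.nonneg i j) (hδ.nonneg j k)) (hy.1 j)
  have hplan : IsPlan x z (fun i k => ∑ j, γ i j * δ j k / y j) := by
    refine ⟨fun i k => Finset.sum_nonneg fun j _ => hn i j k, fun i => ?_, fun k => ?_⟩
    · rw [Finset.sum_comm]
      simp only [e1]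
      exact hγ.row i
    · rw [Finset.sum_comm]
      simp only [e2]
      exact hδ.col k
  refine (transport_le hd hplan).trans ?_
  have e3 : planCost d (fun i k => ∑ j, γ i j * δ j k / y j) ≤ planCost d γ + planCost d δ := by
    unfold planCost
    calc ∑ i, ∑ k, (∑ j, γ i j * δ j k / y j) * d i k
        = ∑ i, ∑ k, ∑ j, γ i j * δ j k / y j * d i k := by simp only [Finset.sum_mul]
      _ ≤ ∑ i, ∑ k, ∑ j, (γ i j * δ j k / y j * d i j + γ i j * δ j k / y j * d j k) := by
          refine Finset.sum_le_sum fun i _ => Finset.sum_le_sum fun k _ =>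
            Finset.sum_le_sum fun j _ => ?_
          rw [← mul_add]
          exact mul_le_mul_of_nonneg_left (htri i j k) (hn i j k)
      _ = (∑ i, ∑ j, (∑ k, γ i j * δ j k / y j) * d i j) +
            ∑ j, ∑ k, (∑ i, γ i j * δ j k / y j) * d j k := by
          simp only [Finset.sum_add_distrib, Finset.sum_mul]
          congr 1
          · refine Finset.sum_congr rfl fun i _ => ?_
            rw [Finset.sum_comm]
          · calc ∑ i, ∑ k, ∑ j, γ i j * δ j k / y j * d j k
                = ∑ i, ∑ j, ∑ k, γ i j * δ j k / y j * d j k := by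
                  refine Finset.sum_congr rfl fun i _ => ?_
                  rw [Finset.sum_comm]
              _ = ∑ j, ∑ i, ∑ k, γ i j * δ j k / y j * d j k := by rw [Finset.sum_comm]
              _ = ∑ j, ∑ k, ∑ i, γ i j * δ j k / y j * d j k := by
                  refine Finset.sum_congr rfl fun j _ => ?_
                  rw [Finset.sum_comm]
      _ = _ := by simp only [e1, e2]
  linarith

lemma transport_self {d : M → M → ℝ} (hd : ∀ i j, 0 ≤ d i j) (h0 : ∀ i, d i i = 0) {x : M → ℝ}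
    (hx : x ∈ stdSimplex ℝ M) : transport d x x ≤ 0 := by
  classical
  have hplan : IsPlan x x (fun i j => if i = j then x i else 0) := by
    refine ⟨fun i j => ?_, fun i => ?_, fun j => ?_⟩
    · split_ifs
      · exact hx.1 i
      · exact le_rfl
    · simp
    · simp
  refine (transport_le hd hplan).trans (le_of_eq ?_)
  unfold planCost
  refine Finset.sum_eq_zero fun i _ => Finset.sum_eq_zero fun j _ => ?_
  by_cases h : i = j
  · subst h; simp [h0]
  · simp [h]

/-- moving towards `u` by a factor `ε` -/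
lemma transport_mix {d : M → M → ℝ} (hd : ∀ i j, 0 ≤ d i j) (h0 : ∀ i, d i i = 0) {Δ : ℝ}
    (hΔ : ∀ i j, d i j ≤ Δ) {x u : M → ℝ} (hx : x ∈ stdSimplex ℝ M) (hu : u ∈ stdSimplex ℝ M)
    {ε : ℝ} (hε0 : 0 ≤ ε) (hε1 : ε ≤ 1) :
    transport d x (fun i => (1 - ε) * x i + ε * u i) ≤ ε * Δ := by
  classical
  have hplan : IsPlan x (fun i => (1 - ε) * x i + ε * u i)
      (fun i j => (1 - ε) * (if i = j then x i else 0) + ε * (x i * u j)) := by
    refine ⟨fun i j => ?_, fun i => ?_, fun j => ?_⟩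
    · refine add_nonneg (mul_nonneg (by linarith) ?_)
        (mul_nonneg hε0 (mul_nonneg (hx.1 i) (hu.1 j)))
      split_ifs
      · exact hx.1 i
      · exact le_rfl
    · rw [Finset.sum_add_distrib, ← Finset.mul_sum, ← Finset.mul_sum, ← Finset.mul_sum, hu.2]
      simp
      ring
    · rw [Finset.sum_add_distrib, ← Finset.mul_sum, ← Finset.mul_sum, ← Finset.sum_mul, hx.2]
      simp
  refine (transport_le hd hplan).trans ?_
  unfold planCost
  have e1 : ∀ i j, ((1 - ε) * (if i = j then x i else 0) + ε * (x i * u j)) * d i j ≤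
      ε * (x i * u j * Δ) := by
    intro i j
    have h2 : ε * (x i * u j) * d i j ≤ ε * (x i * u j) * Δ :=
      mul_le_mul_of_nonneg_left (hΔ i j) (mul_nonneg hε0 (mul_nonneg (hx.1 i) (hu.1 j)))
    by_cases h : i = j
    · subst h
      rw [h0] at h2 ⊢
      simp only [mul_zero] at h2 ⊢
      linarith
    · simp only [h, if_false, mul_zero, zero_add]
      linarith
  refine (Finset.sum_le_sum fun i _ => Finset.sum_le_sum fun j _ => e1 i j).trans (le_of_eq ?_)
  have e2 : ∀ i, ∑ j, ε * (x i * u j * Δ) = ε * Δ * x i := by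
    intro i
    rw [← Finset.mul_sum, ← Finset.sum_mul, ← Finset.mul_sum, hu.2]
    ring
  simp only [e2]
  rw [← Finset.mul_sum, hx.2, mul_one]

lemma transport_symm {d : M → M → ℝ} (hs : ∀ i j, d i j = d j i) (x y : M → ℝ) :
    transport d x y = transport d y x := by
  unfold transport
  congr 1
  ext c
  constructor
  · rintro ⟨γ, hγ, rfl⟩
    refine ⟨fun i j => γ j i, ⟨fun i j => hγ.nonneg j i, hγ.col, hγ.row⟩, ?_⟩
    rw [Finset.sum_comm]
    exact Finset.sum_congr rfl fun i _ => Finset.sum_congr rfl fun j _ => by rw [hs]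
  · rintro ⟨γ, hγ, rfl⟩
    refine ⟨fun i j => γ j i, ⟨fun i j => hγ.nonneg j i, hγ.col, hγ.row⟩, ?_⟩
    rw [Finset.sum_comm]
    exact Finset.sum_congr rfl fun i _ => Finset.sum_congr rfl fun j _ => by rw [hs]

/-- moving mass to one point -/
lemma transport_to_point [DecidableEq M] {d : M → M → ℝ} (hd : ∀ i j, 0 ≤ d i j)
    (h0 : ∀ i, d i i = 0) (hs : ∀ i j, d i j = d j i) {x y : M → ℝ} (hx : x ∈ stdSimplex ℝ M)
    (hy : y ∈ stdSimplex ℝ M) {i : M} (hle : ∀ j, j ≠ i → y j ≤ x j) :
    transport d x y ≤ ∑ j, (x j - y j) * d i j := by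
  have hii : x i ≤ y i := by
    have h1 := hx.2
    have h2 := hy.2
    rw [← Finset.add_sum_erase _ _ (Finset.mem_univ i)] at h1 h2
    have h3 : ∑ j ∈ Finset.univ.erase i, y j ≤ ∑ j ∈ Finset.univ.erase i, x j :=
      Finset.sum_le_sum fun j hj => hle j (Finset.ne_of_mem_erase hj)
    linarith
  have hplan : IsPlan x y (fun j k => (if j = k then (if j = i then x i else y j) else 0) +
      (if k = i then (if j = i then 0 else x j - y j) else 0)) := by
    refine ⟨fun j k => ?_, fun j => ?_, fun k => ?_⟩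
    · refine add_nonneg ?_ ?_
      · split_ifs
        · exact hx.1 i
        · exact hy.1 j
        · exact le_rfl
      · split_ifs with h1 h2
        · exact le_rfl
        · linarith [hle j h2]
        · exact le_rfl
    · rw [Finset.sum_add_distrib]
      simp only [Finset.sum_ite_eq, Finset.sum_ite_eq', Finset.mem_univ, if_true]
      split_ifs with h
      · rw [h]; ring
      · ring
    · rw [Finset.sum_add_distrib]
      by_cases hk : k = i
      · subst hk
        simp only [if_true]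
        rw [← Finset.add_sum_erase _ (fun j => if j = k then (0 : ℝ) else x j - y j)
          (Finset.mem_univ k)]
        have e1 : ∑ j ∈ Finset.univ.erase k, (if j = k then (0 : ℝ) else x j - y j) =
            ∑ j ∈ Finset.univ.erase k, (x j - y j) := by
          refine Finset.sum_congr rfl fun j hj => ?_
          rw [if_neg (Finset.ne_of_mem_erase hj)]
        rw [e1, Finset.sum_sub_distrib]
        simp
        linarith [hx.2, hy.2]
      · simp [hk]
  refine (transport_le hd hplan).trans (le_of_eq ?_)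
  unfold planCost
  refine Finset.sum_congr rfl fun j _ => ?_
  have e1 : ∀ k, ((if j = k then (if j = i then x i else y j) else 0) +
      (if k = i then (if j = i then 0 else x j - y j) else 0)) * d j k =
      (if k = i then (if j = i then 0 else x j - y j) * d j i else 0) := by
    intro k
    by_cases h1 : j = k
    · subst h1
      rw [h0, mul_zero]
      by_cases h2 : j = i
      · simp [h2]
      · simp [h2]
    · simp only [h1, if_false, zero_add]
      by_cases h2 : k = i
      · simp [h2]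
      · simp [h2]
  simp only [e1, Finset.sum_ite_eq', Finset.mem_univ, if_true]
  by_cases h : j = i
  · subst h; simp [h0]
  · simp only [h, if_false]
    rw [hs]

/-- the transport cost of averages -/
lemma transport_average {d : M → M → ℝ} (hd : ∀ i j, 0 ≤ d i j) {Ω : Type*} [Fintype Ω]
    [Nonempty Ω] {x y : Ω → M → ℝ} (hx : ∀ ω, x ω ∈ stdSimplex ℝ M)
    (hy : ∀ ω, y ω ∈ stdSimplex ℝ M) :
    (Fintype.card Ω : ℝ) * transport d (fun i => (∑ ω, x ω i) / Fintype.card Ω)
      (fun i => (∑ ω, y ω i) / Fintype.card Ω) ≤ ∑ ω, transport d (x ω) (y ω) := by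
  have hN : (0 : ℝ) < Fintype.card Ω := by exact_mod_cast Fintype.card_pos
  refine le_of_forall_pos_le_add fun ε hε => ?_
  choose γ hγ h1 using fun ω => exists_plan (d := d) (hx ω) (hy ω) (div_pos hε hN)
  have hplan : IsPlan (fun i => (∑ ω, x ω i) / Fintype.card Ω)
      (fun i => (∑ ω, y ω i) / Fintype.card Ω)
      (fun i j => (∑ ω, γ ω i j) / Fintype.card Ω) := by
    refine ⟨fun i j => div_nonneg (Finset.sum_nonneg fun ω _ => (hγ ω).nonneg i j) hN.le,
      fun i => ?_, fun j => ?_⟩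
    · rw [← Finset.sum_div, Finset.sum_comm]
      simp only [(hγ _).row]
    · rw [← Finset.sum_div, Finset.sum_comm]
      simp only [(hγ _).col]
  have h2 := mul_le_mul_of_nonneg_left (transport_le hd hplan) hN.le
  refine h2.trans ?_
  have e1 : (Fintype.card Ω : ℝ) * planCost d (fun i j => (∑ ω, γ ω i j) / Fintype.card Ω) =
      ∑ ω, planCost d (γ ω) := by
    unfold planCost
    rw [Finset.mul_sum]
    rw [Finset.sum_comm (s := (Finset.univ : Finset Ω))]
    refine Finset.sum_congr rfl fun i _ => ?_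
    rw [Finset.mul_sum, Finset.sum_comm (s := (Finset.univ : Finset Ω))]
    refine Finset.sum_congr rfl fun j _ => ?_
    rw [← Finset.sum_mul]
    field_simp
  rw [e1]
  have h3 : ∑ ω, planCost d (γ ω) ≤ ∑ ω, (transport d (x ω) (y ω) + ε / Fintype.card Ω) :=
    Finset.sum_le_sum fun ω _ => (h1 ω).le
  refine h3.trans (le_of_eq ?_)
  rw [Finset.sum_add_distrib]
  simp
  field_simp

end Pool.Agent.Lib37.MAP
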