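import Pool.Agent.Lib_helper37.MAP.Avg
import Pool.Agent.Lib_helper37.MAP.Step
import Pool.Agent.Lib_helper37.MAP.Transport
import Pool.Agent.Lib_helper37.MAP.Interface

/-!
Averaged gradients of dual work functions with respect to a weighted family of cuts.
-/

namespace Pool.Agent.Lib37.MAP

open MeasureTheory Finset Filter Topology

variable {M U : Type*} [Fintype M] [DecidableEq M] [Fintype U]

/-- indicator -/
def ind (T : U → Finset M) (u : U) (i : M) : ℝ := if i ∈ T u then 1 else 0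

omit [Fintype M] [Fintype U] in
lemma ind_nonneg (T : U → Finset M) (u : U) (i : M) : 0 ≤ ind T u i := by
  unfold ind; split_ifs <;> norm_num

omit [Fintype M] [Fintype U] in
lemma ind_le_one (T : U → Finset M) (u : U) (i : M) : ind T u i ≤ 1 := by
  unfold ind; split_ifs <;> norm_num

/-- the linear map from cut coefficients to functions on `M` -/
noncomputable def Lm (T : U → Finset M) (w : U → ℝ) : (U → ℝ) →ₗ[ℝ] (M → ℝ) where
  toFun ζ i := ∑ u, w u * ζ u * ind T u i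
  map_add' a b := by
    funext i
    simp only [Pi.add_apply]
    rw [← Finset.sum_add_distrib]
    exact Finset.sum_congr rfl fun u _ => by ring
  map_smul' c a := by
    funext i
    simp only [Pi.smul_apply, smul_eq_mul, RingHom.id_apply]
    rw [Finset.mul_sum]
    exact Finset.sum_congr rfl fun u _ => by ring

omit [Fintype M] in
lemma Lm_apply (T : U → Finset M) (w : U → ℝ) (ζ : U → ℝ) (i : M) :
    Lm T w ζ i = ∑ u, w u * ζ u * ind T u i := rfl

/-- hypotheses on the cut family -/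
structure CutFam (T : U → Finset M) (w : U → ℝ) (sel : M → U) : Prop where
  nonneg : ∀ u, 0 ≤ w u
  selT : ∀ j, T (sel j) = {j}
  selw : ∀ j, 0 < w (sel j)

variable {T : U → Finset M} {w : U → ℝ} {sel : M → U}

omit [Fintype M] in
lemma cutDist_nonneg (hw : ∀ u, 0 ≤ w u) (i j : M) : 0 ≤ cutDist T w i j :=
  Finset.sum_nonneg fun u _ => mul_nonneg (hw u) (abs_nonneg _)

omit [Fintype M] in
lemma cutDist_self (i : M) : cutDist T w i i = 0 := by
  unfold cutDist
  simp

omit [Fintype M] in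
lemma cutDist_symm (i j : M) : cutDist T w i j = cutDist T w j i := by
  unfold cutDist
  exact Finset.sum_congr rfl fun u _ => by rw [abs_sub_comm]

omit [Fintype M] in
lemma cutDist_triangle (hw : ∀ u, 0 ≤ w u) (i j k : M) :
    cutDist T w i k ≤ cutDist T w i j + cutDist T w j k := by
  unfold cutDist
  rw [← Finset.sum_add_distrib]
  refine Finset.sum_le_sum fun u _ => ?_
  rw [← mul_add]
  exact mul_le_mul_of_nonneg_left (abs_sub_le _ _ _) (hw u)

omit [Fintype M] in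
lemma cutDist_le_sum (hw : ∀ u, 0 ≤ w u) (i j : M) : cutDist T w i j ≤ ∑ u, w u := by
  unfold cutDist
  refine Finset.sum_le_sum fun u _ => ?_
  refine mul_le_of_le_one_right (hw u) ?_
  split_ifs <;> norm_num

omit [Fintype M] in
lemma Lm_mem (hw : ∀ u, 0 ≤ w u) {ζ : U → ℝ} (hζ : Box ζ) : Lm T w ζ ∈ Bset (cutDist T w) := by
  intro i j
  rw [Lm_apply, Lm_apply, ← Finset.sum_sub_distrib]
  unfold cutDist
  refine Finset.sum_le_sum fun u _ => ?_
  have h1 : w u * ζ u * ind T u i - w u * ζ u * ind T u j =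
      w u * (ζ u * (ind T u i - ind T u j)) := by ring
  rw [h1]
  refine mul_le_mul_of_nonneg_left ?_ (hw u)
  have h2 : ζ u * (ind T u i - ind T u j) ≤ ζ u * |ind T u i - ind T u j| :=
    mul_le_mul_of_nonneg_left (le_abs_self _) (hζ u).1.le
  refine h2.trans ?_
  exact mul_le_of_le_one_left (abs_nonneg _) (hζ u).2.le

omit [Fintype M] in
lemma Lm_nonneg (hw : ∀ u, 0 ≤ w u) {ζ : U → ℝ} (hζ : Box ζ) (i : M) : 0 ≤ Lm T w ζ i :=
  Finset.sum_nonneg fun u _ => mul_nonneg (mul_nonneg (hw u) (hζ u).1.le) (ind_nonneg T u i)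

omit [Fintype M] in
lemma Lm_le (hw : ∀ u, 0 ≤ w u) {ζ : U → ℝ} (hζ : Box ζ) (i : M) :
    Lm T w ζ i ≤ ∑ u, w u := by
  rw [Lm_apply]
  refine Finset.sum_le_sum fun u _ => ?_
  have h1 : w u * ζ u ≤ w u := mul_le_of_le_one_right (hw u) (hζ u).2.le
  exact (mul_le_of_le_one_right (mul_nonneg (hw u) (hζ u).1.le) (ind_le_one T u i)).trans h1

lemma Lm_dist (hw : ∀ u, 0 ≤ w u) (a b : U → ℝ) :
    dist (Lm T w a) (Lm T w b) ≤ (∑ u, w u) * dist a b := by
  have h0 : 0 ≤ ∑ u, w u := Finset.sum_nonneg fun u _ => hw u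
  rw [dist_pi_le_iff (mul_nonneg h0 dist_nonneg)]
  intro i
  rw [Real.dist_eq, Lm_apply, Lm_apply, ← Finset.sum_sub_distrib, Finset.sum_mul]
  refine (Finset.abs_sum_le_sum_abs _ _).trans (Finset.sum_le_sum fun u _ => ?_)
  have h1 : w u * a u * ind T u i - w u * b u * ind T u i =
      w u * ind T u i * (a u - b u) := by ring
  rw [h1, abs_mul, abs_mul, abs_of_nonneg (hw u), abs_of_nonneg (ind_nonneg T u i)]
  have h2 : |a u - b u| ≤ dist a b := by
    rw [← Real.dist_eq]; exact dist_le_pi_dist a b u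
  have h3 : w u * ind T u i ≤ w u := mul_le_of_le_one_right (hw u) (ind_le_one T u i)
  exact mul_le_mul h3 h2 (abs_nonneg _) (hw u)

/-- the Lipschitz constant -/
noncomputable def lipC (w : U → ℝ) : NNReal := Real.toNNReal (∑ u, w u)

/-- the composition of `F` with `Lm` -/
noncomputable def Fc (T : U → Finset M) (w : U → ℝ) (F : (M → ℝ) → ℝ) (ζ : U → ℝ) : ℝ :=
  F (Lm T w ζ)

lemma Fc_lip (hw : ∀ u, 0 ≤ w u) {F : (M → ℝ) → ℝ} (hF : Good F) :
    LipschitzWith (lipC w) (Fc T w F) := by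
  refine LipschitzWith.of_dist_le_mul fun a b => ?_
  have h0 : 0 ≤ ∑ u, w u := Finset.sum_nonneg fun u _ => hw u
  have h1 : ((lipC w : NNReal) : ℝ) = ∑ u, w u := Real.coe_toNNReal _ h0
  rw [h1, Real.dist_eq]
  exact (hF.abs_sub_le _ _).trans (Lm_dist hw a b)

variable [DecidableEq U]

/-- direction realising the unit vector at `j` -/
noncomputable def vdir (w : U → ℝ) (sel : M → U) (j : M) : U → ℝ :=
  (w (sel j))⁻¹ • Pi.single (sel j) 1

omit [Fintype M] in
lemma Lm_single (u : U) (i : M) : Lm T w (Pi.single u 1) i = w u * ind T u i := by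
  rw [Lm_apply, Finset.sum_eq_single u]
  · simp
  · intro v _ hv
    simp [hv]
  · intro h
    exact absurd (Finset.mem_univ u) h

omit [Fintype M] in
lemma Lm_vdir (h : CutFam T w sel) (j : M) : Lm T w (vdir w sel j) = Pi.single j 1 := by
  funext i
  unfold vdir
  rw [map_smul, Pi.smul_apply, smul_eq_mul, Lm_single, ind, h.selT]
  simp only [Finset.mem_singleton]
  by_cases hij : i = j
  · subst hij
    simp [(h.selw i).ne']
  · simp [hij]

/-- the averaged gradient -/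
noncomputable def xg (ρ : ℝ) (T : U → Finset M) (w : U → ℝ) (sel : M → U) (F : (M → ℝ) → ℝ)
    (j : M) : ℝ := dav ρ (Fc T w F) (vdir w sel j)

/-- derivative in an arbitrary direction -/
lemma dav_Fc (hc : CutFam T w sel) {ρ : ℝ} (hρ : 0 ≤ ρ) (hZ : 0 < ∫ ζ : U → ℝ, PP ρ ζ)
    {F : (M → ℝ) → ℝ} (hF : Good F) (η : U → ℝ) :
    dav ρ (Fc T w F) η = ∑ j, Lm T w η j * xg ρ T w sel F j := by
  have hl := Fc_lip (T := T) hc.nonneg hF
  have h1 : dav ρ (Fc T w F) (η - ∑ j, Lm T w η j • vdir w sel j) = 0 := by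
    refine dav_eq hρ hZ hl fun ζ s _ _ => ?_
    have h2 : Lm T w (η - ∑ j, Lm T w η j • vdir w sel j) = 0 := by
      rw [map_sub, map_sum]
      simp only [map_smul, Lm_vdir hc]
      funext i
      simp only [Pi.sub_apply, Finset.sum_apply, Pi.smul_apply, smul_eq_mul, Pi.zero_apply]
      rw [Finset.sum_eq_single i]
      · simp
      · intro j _ hj
        simp [Pi.single_eq_of_ne (Ne.symm hj)]
      · intro h
        exact absurd (Finset.mem_univ i) h
    unfold Fc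
    rw [map_add, map_smul, h2]
    simp
  have h2 : η = (η - ∑ j, Lm T w η j • vdir w sel j) + ∑ j, Lm T w η j • vdir w sel j := by
    abel
  conv_lhs => rw [h2]
  rw [dav_add_dir hl, h1, zero_add, dav_sum_dir hl]
  rfl

lemma xg_nonneg (hc : CutFam T w sel) {ρ : ℝ} (hρ : 0 ≤ ρ) (hZ : 0 < ∫ ζ : U → ℝ, PP ρ ζ)
    {F : (M → ℝ) → ℝ} (hF : Good F) (j : M) : 0 ≤ xg ρ T w sel F j := by
  refine le_dav hρ hZ (Fc_lip hc.nonneg hF) fun ζ s hs _ => ?_
  rw [mul_zero, sub_nonneg]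
  unfold Fc
  refine hF.mono _ _ ?_
  rw [map_add, map_smul, Lm_vdir hc]
  intro i
  simp only [Pi.add_apply, Pi.smul_apply, smul_eq_mul]
  have : (0 : ℝ) ≤ (Pi.single j (1 : ℝ) : M → ℝ) i := by
    by_cases h : i = j
    · subst h; simp
    · simp [Pi.single_eq_of_ne h]
  nlinarith

lemma xg_sum (hc : CutFam T w sel) {ρ : ℝ} (hρ : 0 ≤ ρ) (hZ : 0 < ∫ ζ : U → ℝ, PP ρ ζ)
    {F : (M → ℝ) → ℝ} (hF : Good F) : ∑ j, xg ρ T w sel F j = 1 := by
  have hl := Fc_lip (T := T) hc.nonneg hF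
  have h1 : dav ρ (Fc T w F) (∑ j, (1 : ℝ) • vdir w sel j) = 1 := by
    refine dav_eq hρ hZ hl fun ζ s _ _ => ?_
    have h2 : Lm T w (∑ j, (1 : ℝ) • vdir w sel j) = fun _ => 1 := by
      rw [map_sum]
      simp only [map_smul, Lm_vdir hc]
      funext i
      simp only [Finset.sum_apply, Pi.smul_apply, smul_eq_mul, one_mul]
      rw [Finset.sum_eq_single i]
      · simp
      · intro j _ hj
        simp [Pi.single_eq_of_ne (Ne.symm hj)]
      · intro h
        exact absurd (Finset.mem_univ i) h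
    unfold Fc
    rw [map_add, map_smul, h2]
    have h3 : Lm T w ζ + s • (fun _ : M => (1 : ℝ)) = fun i => Lm T w ζ i + s := by
      funext i; simp
    rw [h3, hF.trans]
    ring
  rw [dav_sum_dir hl] at h1
  simpa [xg] using h1

lemma xg_mem (hc : CutFam T w sel) {ρ : ℝ} (hρ : 0 ≤ ρ) (hZ : 0 < ∫ ζ : U → ℝ, PP ρ ζ)
    {F : (M → ℝ) → ℝ} (hF : Good F) : xg ρ T w sel F ∈ stdSimplex ℝ M :=
  ⟨xg_nonneg hc hρ hZ hF, xg_sum hc hρ hZ hF⟩

omit [Fintype M] in
lemma xg_congr (hc : CutFam T w sel) {ρ : ℝ} {F F' : (M → ℝ) → ℝ}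
    (h : ∀ θ ∈ Bset (cutDist T w), F θ = F' θ) : xg ρ T w sel F = xg ρ T w sel F' := by
  funext j
  exact dav_congr (fun ζ hζ => h _ (Lm_mem hc.nonneg hζ)) _

lemma xg_linear (hc : CutFam T w sel) {ρ : ℝ} (hρ : 0 ≤ ρ) (hZ : 0 < ∫ ζ : U → ℝ, PP ρ ζ)
    {x : M → ℝ} (hx : x ∈ stdSimplex ℝ M) :
    xg ρ T w sel (fun θ => ∑ i, θ i * x i) = x := by
  funext j
  refine dav_eq hρ hZ (Fc_lip hc.nonneg (good_linear hx)) fun ζ s _ _ => ?_
  unfold Fc
  rw [map_add, map_smul, Lm_vdir hc, ← Finset.sum_sub_distrib, Finset.sum_eq_single j]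
  · simp
    ring
  · intro i _ hi
    simp [Pi.single_eq_of_ne hi]
  · intro h
    exact absurd (Finset.mem_univ j) h

/-- potential -/
noncomputable def Psi (T : U → Finset M) (w : U → ℝ) (x : M → ℝ) : ℝ :=
  ∑ u, w u * ∑ j, ind T u j * x j

omit [DecidableEq U] in
lemma Psi_nonneg (hw : ∀ u, 0 ≤ w u) {x : M → ℝ} (hx : x ∈ stdSimplex ℝ M) :
    0 ≤ Psi T w x :=
  Finset.sum_nonneg fun u _ => mul_nonneg (hw u)
    (Finset.sum_nonneg fun j _ => mul_nonneg (ind_nonneg T u j) (hx.1 j))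

omit [DecidableEq U] in
lemma Psi_le (hw : ∀ u, 0 ≤ w u) {x : M → ℝ} (hx : x ∈ stdSimplex ℝ M) :
    Psi T w x ≤ ∑ u, w u := by
  refine Finset.sum_le_sum fun u _ => ?_
  refine mul_le_of_le_one_right (hw u) ?_
  rw [← hx.2]
  exact Finset.sum_le_sum fun j _ => mul_le_of_le_one_left (hx.1 j) (ind_le_one T u j)

/-- potential from values -/
noncomputable def JJ (ρ : ℝ) (T : U → Finset M) (w : U → ℝ) (h : ℝ) (F : (M → ℝ) → ℝ) : ℝ :=
  h * vav ρ (Fc T w F) + ∑ u, uav ρ (Fc T w F) u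

end Pool.Agent.Lib37.MAP
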