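import Mathlib

/-!
Online metric allocation (MAP): definitions.

One unit of a divisible resource is held on the points of a finite metric space `M`.  A task gives
at every point a cost function of the amount held there (non-negative, non-increasing, convex on
`[0,1]`).  After a task is revealed the algorithm moves to a new allocation, paying the minimum
transport cost and then the service cost at the new allocation.
-/

namespace Pool.Agent.Lib37.MAP

open Finset

/-- `γ` is a transport plan from the allocation `x` to the allocation `y`:
`γ i j` is the amount sent from `i` to `j`. -/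
structure IsPlan {M : Type*} [Fintype M] (x y : M → ℝ) (γ : M → M → ℝ) : Prop where
  nonneg : ∀ i j, 0 ≤ γ i j
  row : ∀ i, ∑ j, γ i j = x i
  col : ∀ j, ∑ i, γ i j = y j

/-- Minimum cost of transporting the allocation `x` to the allocation `y` with respect to `d`. -/
noncomputable def transport {M : Type*} [Fintype M] (d : M → M → ℝ) (x y : M → ℝ) : ℝ :=
  sInf {c : ℝ | ∃ γ : M → M → ℝ, IsPlan x y γ ∧ c = ∑ i, ∑ j, γ i j * d i j}

/-- A task: at every point a cost function on `[0,1]` which is non-negative, non-increasing and
convex (its values outside `[0,1]` are irrelevant). -/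
structure Task (M : Type*) where
  cost : M → ℝ → ℝ
  nonneg : ∀ i, ∀ s ∈ Set.Icc (0 : ℝ) 1, 0 ≤ cost i s
  antitone : ∀ i, AntitoneOn (cost i) (Set.Icc 0 1)
  convex : ∀ i, ConvexOn ℝ (Set.Icc 0 1) (cost i)

/-- A (deterministic) online algorithm started at `x₀`.  `alloc r t` is its allocation after the
tasks `r 0, …, r (t-1)`; it may depend only on these tasks. -/
structure OnlineAlgorithm (M : Type*) [Fintype M] (x₀ : M → ℝ) where
  alloc : (ℕ → Task M) → ℕ → M → ℝ
  mem : ∀ r t, alloc r t ∈ stdSimplex ℝ M
  start : ∀ r, alloc r 0 = x₀
  online : ∀ r r' t, (∀ s < t, r s = r' s) → alloc r t = alloc r' t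

/-- Total (movement plus service) cost of the sequence of allocations `x 0, x 1, …, x N` when the
tasks `r 0, …, r (N-1)` are served at `x 1, …, x N`. -/
noncomputable def totalCost {M : Type*} [Fintype M] (d : M → M → ℝ) (r : ℕ → Task M) (N : ℕ)
    (x : ℕ → M → ℝ) : ℝ :=
  ∑ t ∈ range N, (transport d (x t) (x (t + 1)) + ∑ i, (r t).cost i (x (t + 1) i))

/-- `A` is `ρ`-competitive: up to an additive constant not depending on the request sequence, its
cost is at most `ρ` times the cost of every offline sequence of allocations from the same start. -/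
def IsCompetitive {M : Type*} [Fintype M] (d : M → M → ℝ) {x₀ : M → ℝ}
    (A : OnlineAlgorithm M x₀) (ρ : ℝ) : Prop :=
  ∃ β : ℝ, ∀ (r : ℕ → Task M) (N : ℕ) (y : ℕ → M → ℝ), y 0 = x₀ →
    (∀ t, y t ∈ stdSimplex ℝ M) →
    totalCost d r N (A.alloc r) ≤ ρ * totalCost d r N y + β

end Pool.Agent.Lib37.MAP
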