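import Mathlib

/-!
The product kernel on the unit cube and the basic inequality for averaged derivatives.
-/

namespace Pool.Agent.Lib37.MAP

open MeasureTheory Finset Filter Topology

/-- one-dimensional kernel `e^{ρ z} - 1` on `(0,1)` -/
noncomputable def pk (ρ z : ℝ) : ℝ := if 0 < z ∧ z < 1 then Real.exp (ρ * z) - 1 else 0

/-- indicator of `(0,1)` -/
noncomputable def ik (z : ℝ) : ℝ := if 0 < z ∧ z < 1 then 1 else 0

lemma pk_nonneg {ρ : ℝ} (hρ : 0 ≤ ρ) (z : ℝ) : 0 ≤ pk ρ z := by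
  unfold pk
  split_ifs with h
  · have := Real.add_one_le_exp (ρ * z)
    have h2 := mul_nonneg hρ h.1.le
    linarith
  · exact le_rfl

lemma ik_nonneg (z : ℝ) : 0 ≤ ik z := by
  unfold ik
  split_ifs <;> norm_num

lemma pk_sub_le {ρ : ℝ} (hρ : 0 ≤ ρ) {s : ℝ} (hs : 0 ≤ s) (z : ℝ) :
    pk ρ z - pk ρ (z - s) ≤ s * ρ * (pk ρ z + ik z) := by
  by_cases h : 0 < z ∧ z < 1
  · have e1 : pk ρ z = Real.exp (ρ * z) - 1 := by unfold pk; rw [if_pos h]
    have e2 : ik z = 1 := by unfold ik; rw [if_pos h]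
    rw [e1, e2]
    have hexp := Real.exp_pos (ρ * z)
    by_cases h' : 0 < z - s
    · have e3 : pk ρ (z - s) = Real.exp (ρ * (z - s)) - 1 := by
        unfold pk; rw [if_pos ⟨h', by linarith [h.2]⟩]
      rw [e3]
      have h1 : Real.exp (ρ * (z - s)) = Real.exp (ρ * z) * Real.exp (-(ρ * s)) := by
        rw [← Real.exp_add]; congr 1; ring
      rw [h1]
      have h2 := Real.add_one_le_exp (-(ρ * s))
      nlinarith
    · have e3 : pk ρ (z - s) = 0 := by
        unfold pk; rw [if_neg]; rintro ⟨h1, _⟩; exact h' h1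
      rw [e3]
      have h1 : Real.exp (ρ * z) * Real.exp (-(ρ * z)) = 1 := by
        rw [← Real.exp_add]; simp
      have h2 := Real.add_one_le_exp (-(ρ * z))
      have h3 : Real.exp (ρ * z) - 1 ≤ ρ * z * Real.exp (ρ * z) := by nlinarith
      have h4 : ρ * z * Real.exp (ρ * z) ≤ s * ρ * Real.exp (ρ * z) := by
        refine mul_le_mul_of_nonneg_right ?_ hexp.le
        nlinarith
      linarith
  · have e1 : pk ρ z = 0 := by unfold pk; rw [if_neg h]
    have e2 : ik z = 0 := by unfold ik; rw [if_neg h]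
    rw [e1, e2]
    have := pk_nonneg hρ (z - s)
    simp only [add_zero, mul_zero]
    linarith

lemma integrable_pk (ρ : ℝ) : Integrable (pk ρ) := by
  have h : pk ρ = Set.indicator (Set.Ioo 0 1) (fun z => Real.exp (ρ * z) - 1) := by
    funext z
    unfold pk Set.indicator
    simp [Set.mem_Ioo]
  rw [h, integrable_indicator_iff measurableSet_Ioo]
  have hc : Continuous fun z : ℝ => Real.exp (ρ * z) - 1 := by fun_prop
  exact (hc.integrableOn_Icc (a := 0) (b := 1)).mono_set Set.Ioo_subset_Icc_self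

lemma integrable_ik : Integrable ik := by
  have h : ik = Set.indicator (Set.Ioo 0 1) (fun _ => (1 : ℝ)) := by
    funext z
    unfold ik Set.indicator
    simp [Set.mem_Ioo]
  rw [h, integrable_indicator_iff measurableSet_Ioo]
  have hc : Continuous fun _ : ℝ => (1 : ℝ) := by fun_prop
  exact (hc.integrableOn_Icc (a := 0) (b := 1)).mono_set Set.Ioo_subset_Icc_self

lemma integral_ik : ∫ z, ik z = 1 := by
  have h : ik = Set.indicator (Set.Ioo 0 1) (fun _ => (1 : ℝ)) := by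
    funext z
    unfold ik Set.indicator
    simp [Set.mem_Ioo]
  rw [h, integral_indicator measurableSet_Ioo]
  simp

lemma integral_pk {ρ : ℝ} (hρ : 0 < ρ) : ∫ z, pk ρ z = (Real.exp ρ - 1) / ρ - 1 := by
  have h : pk ρ = Set.indicator (Set.Ioo 0 1) (fun z => Real.exp (ρ * z) - 1) := by
    funext z
    unfold pk Set.indicator
    simp [Set.mem_Ioo]
  rw [h, integral_indicator measurableSet_Ioo, ← integral_Ioc_eq_integral_Ioo,
    ← intervalIntegral.integral_of_le zero_le_one, intervalIntegral.integral_sub]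
  · rw [intervalIntegral.integral_comp_mul_left (fun z => Real.exp z) hρ.ne']
    simp
    field_simp
  · exact (by fun_prop : Continuous fun z : ℝ => Real.exp (ρ * z)).intervalIntegrable _ _
  · exact (by fun_prop : Continuous fun _ : ℝ => (1 : ℝ)).intervalIntegrable _ _

variable {U : Type*} [Fintype U] [DecidableEq U]

/-- product kernel -/
noncomputable def PP (ρ : ℝ) (ζ : U → ℝ) : ℝ := ∏ v, pk ρ (ζ v)

/-- product kernel with the uniform density at `u` -/
noncomputable def PU (ρ : ℝ) (u : U) (ζ : U → ℝ) : ℝ :=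
  ∏ v, if v = u then ik (ζ v) else pk ρ (ζ v)

omit [DecidableEq U] in
lemma PP_nonneg {ρ : ℝ} (hρ : 0 ≤ ρ) (ζ : U → ℝ) : 0 ≤ PP ρ ζ :=
  Finset.prod_nonneg fun v _ => pk_nonneg hρ _

lemma PU_nonneg {ρ : ℝ} (hρ : 0 ≤ ρ) (u : U) (ζ : U → ℝ) : 0 ≤ PU ρ u ζ := by
  refine Finset.prod_nonneg fun v _ => ?_
  split_ifs
  · exact ik_nonneg _
  · exact pk_nonneg hρ _

omit [DecidableEq U] in
lemma PP_supp {ρ : ℝ} {ζ : U → ℝ} (h : PP ρ ζ ≠ 0) (v : U) : 0 < ζ v ∧ ζ v < 1 := by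
  by_contra h'
  apply h
  refine Finset.prod_eq_zero (Finset.mem_univ v) ?_
  unfold pk
  rw [if_neg h']

lemma PU_supp {ρ : ℝ} {u : U} {ζ : U → ℝ} (h : PU ρ u ζ ≠ 0) (v : U) : 0 < ζ v ∧ ζ v < 1 := by
  by_contra h'
  apply h
  refine Finset.prod_eq_zero (Finset.mem_univ v) ?_
  split_ifs
  · unfold ik; rw [if_neg h']
  · unfold pk; rw [if_neg h']

omit [DecidableEq U] in
lemma integrable_PP (ρ : ℝ) : Integrable (PP ρ : (U → ℝ) → ℝ) := by
  unfold PP
  exact Integrable.fintype_prod (f := fun (_ : U) => pk ρ) (fun _ => integrable_pk ρ)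

lemma integrable_PU (ρ : ℝ) (u : U) : Integrable (PU ρ u : (U → ℝ) → ℝ) := by
  unfold PU
  have := Integrable.fintype_prod (f := fun (v : U) => if v = u then ik else pk ρ)
    (μ := fun _ => (volume : Measure ℝ))
    (fun v => by
      by_cases h : v = u
      · simp only [h, if_true]; exact integrable_ik
      · simp only [h, if_false]; exact integrable_pk ρ)
  refine this.congr (Eventually.of_forall fun ζ => ?_)
  refine Finset.prod_congr rfl fun v _ => ?_
  by_cases h : v = u <;> simp [h]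

omit [DecidableEq U] in
lemma integral_PP (ρ : ℝ) : ∫ ζ : U → ℝ, PP ρ ζ = (∫ z, pk ρ z) ^ (Fintype.card U) := by
  unfold PP
  rw [integral_fintype_prod_volume_eq_pow]

lemma integral_PU (ρ : ℝ) (u : U) :
    (∫ ζ : U → ℝ, PU ρ u ζ) * (∫ z, pk ρ z) = (∫ z, pk ρ z) ^ (Fintype.card U) := by
  unfold PU
  have h1 : ∀ ζ : U → ℝ, (∏ v, if v = u then ik (ζ v) else pk ρ (ζ v)) =
      ∏ v, (if v = u then ik else pk ρ) (ζ v) := by
    intro ζ
    refine Finset.prod_congr rfl fun v _ => ?_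
    by_cases h : v = u <;> simp [h]
  simp only [h1]
  rw [integral_fintype_prod_volume_eq_prod (fun v : U => (if v = u then ik else pk ρ)),
    ← Finset.mul_prod_erase Finset.univ _ (Finset.mem_univ u)]
  simp only [if_true, integral_ik, one_mul]
  have h2 : ∏ v ∈ Finset.univ.erase u, ∫ z, (if v = u then ik else pk ρ) z =
      (∫ z, pk ρ z) ^ (Fintype.card U - 1) := by
    rw [Finset.prod_congr rfl (g := fun _ => ∫ z, pk ρ z)]
    · rw [Finset.prod_const, Finset.card_erase_of_mem (Finset.mem_univ u), Finset.card_univ]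
    · intro v hv
      rw [Finset.mem_erase] at hv
      simp [hv.1]
  rw [h2, ← pow_succ]
  congr 1
  have : 0 < Fintype.card U := Fintype.card_pos_iff.2 ⟨u⟩
  omega

lemma PP_shift {ρ : ℝ} (hρ : 0 ≤ ρ) {s : ℝ} (hs : 0 ≤ s) (u : U) (ζ : U → ℝ) :
    PP ρ ζ - PP ρ (ζ - s • (Pi.single u (1 : ℝ) : U → ℝ)) ≤ s * ρ * (PP ρ ζ + PU ρ u ζ) := by
  unfold PP PU
  set e : U → ℝ := Pi.single u (1 : ℝ) with he
  have g1 : ∏ v, pk ρ (ζ v) = pk ρ (ζ u) * ∏ v ∈ Finset.univ.erase u, pk ρ (ζ v) :=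
    (Finset.mul_prod_erase Finset.univ (fun v => pk ρ (ζ v)) (Finset.mem_univ u)).symm
  have g2 : ∏ v, pk ρ ((ζ - s • e) v) =
      pk ρ ((ζ - s • e) u) * ∏ v ∈ Finset.univ.erase u, pk ρ ((ζ - s • e) v) :=
    (Finset.mul_prod_erase Finset.univ (fun v => pk ρ ((ζ - s • e) v))
      (Finset.mem_univ u)).symm
  have g3 : (∏ v, if v = u then ik (ζ v) else pk ρ (ζ v)) =
      (if u = u then ik (ζ u) else pk ρ (ζ u)) *
        ∏ v ∈ Finset.univ.erase u, (if v = u then ik (ζ v) else pk ρ (ζ v)) :=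
    (Finset.mul_prod_erase Finset.univ (fun v => if v = u then ik (ζ v) else pk ρ (ζ v))
      (Finset.mem_univ u)).symm
  rw [g1, g2, g3]
  have h1 : ∏ v ∈ Finset.univ.erase u, pk ρ ((ζ - s • e) v) =
      ∏ v ∈ Finset.univ.erase u, pk ρ (ζ v) := by
    refine Finset.prod_congr rfl fun v hv => ?_
    rw [Finset.mem_erase] at hv
    simp [he, hv.1]
  have h2 : ∏ v ∈ Finset.univ.erase u, (if v = u then ik (ζ v) else pk ρ (ζ v)) =
      ∏ v ∈ Finset.univ.erase u, pk ρ (ζ v) := by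
    refine Finset.prod_congr rfl fun v hv => ?_
    rw [Finset.mem_erase] at hv
    simp [hv.1]
  have h3 : (ζ - s • e) u = ζ u - s := by simp [he]
  rw [h1, h2, h3]
  simp only [if_true]
  have h4 : 0 ≤ ∏ v ∈ Finset.univ.erase u, pk ρ (ζ v) :=
    Finset.prod_nonneg fun v _ => pk_nonneg hρ _
  have h5 := mul_le_mul_of_nonneg_right (pk_sub_le hρ hs (ζ u)) h4
  linarith

omit [DecidableEq U] in
/-- products of Lipschitz functions with integrable functions of bounded support are integrable -/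
lemma integrable_lip_mul {f Q : (U → ℝ) → ℝ} {C : NNReal} (hf : LipschitzWith C f)
    (hQ : Integrable Q) {R : ℝ} (hR : ∀ ζ, Q ζ ≠ 0 → ‖ζ‖ ≤ R) :
    Integrable (fun ζ => f ζ * Q ζ) := by
  have h1 : Integrable (fun ζ => (|f 0| + C * R) * |Q ζ|) := hQ.abs.const_mul _
  refine h1.mono' ((hf.continuous.aestronglyMeasurable).mul hQ.aestronglyMeasurable)
    (Eventually.of_forall fun ζ => ?_)
  rw [norm_mul, Real.norm_eq_abs, Real.norm_eq_abs]
  by_cases h : Q ζ = 0
  · rw [h]; simp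
  · refine mul_le_mul_of_nonneg_right ?_ (abs_nonneg _)
    have h2 := hf.dist_le_mul ζ 0
    rw [Real.dist_eq, dist_zero_right] at h2
    have h3 : |f ζ| ≤ |f 0| + |f ζ - f 0| := by
      have := abs_add_le (f 0) (f ζ - f 0)
      simpa using this
    have h4 : (C : ℝ) * ‖ζ‖ ≤ C * R := mul_le_mul_of_nonneg_left (hR ζ h) C.2
    linarith

omit [DecidableEq U] in
lemma norm_le_one_of_box {ζ : U → ℝ} (h : ∀ v, 0 < ζ v ∧ ζ v < 1) : ‖ζ‖ ≤ 1 := by
  rw [pi_norm_le_iff_of_nonneg zero_le_one]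
  intro v
  rw [Real.norm_eq_abs, abs_of_pos (h v).1]
  exact (h v).2.le

/-- the basic inequality -/
lemma kernel_ineq {ρ : ℝ} (hρ : 0 ≤ ρ) {f : (U → ℝ) → ℝ} {C : NNReal} (hf : LipschitzWith C f)
    (h0 : ∀ ζ, 0 ≤ f ζ) (u : U) :
    -∫ ζ : U → ℝ, fderiv ℝ f ζ (Pi.single u 1) * PP ρ ζ ≤
      ρ * ∫ ζ : U → ℝ, f ζ * (PP ρ ζ + PU ρ u ζ) := by
  set e : U → ℝ := Pi.single u 1 with he
  have hne : ‖e‖ ≤ 1 := by
    rw [he, pi_norm_le_iff_of_nonneg zero_le_one]
    intro v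
    by_cases h : v = u
    · subst h; simp
    · simp [h]
  have hiP : Integrable (fun ζ : U → ℝ => f ζ * PP ρ ζ) :=
    integrable_lip_mul hf (integrable_PP ρ) fun ζ h => norm_le_one_of_box (PP_supp h)
  have hiU : Integrable (fun ζ : U → ℝ => f ζ * PU ρ u ζ) :=
    integrable_lip_mul hf (integrable_PU ρ u) fun ζ h => norm_le_one_of_box (PU_supp h)
  -- the difference quotients
  have key : ∀ n : ℕ, ∫ ζ : U → ℝ, (((n : ℝ) + 1) • (f ζ - f (ζ + ((n : ℝ) + 1)⁻¹ • e))) * PP ρ ζ ≤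
      ρ * ∫ ζ : U → ℝ, f ζ * (PP ρ ζ + PU ρ u ζ) := by
    intro n
    have hn : (0 : ℝ) < (n : ℝ) + 1 := by positivity
    set s : ℝ := ((n : ℝ) + 1)⁻¹ with hs
    have hs0 : 0 < s := inv_pos.2 hn
    have hsn : s * ((n : ℝ) + 1) = 1 := inv_mul_cancel₀ hn.ne'
    have hi1 : Integrable (fun ζ : U → ℝ => f ζ * PP ρ (ζ - s • e)) := by
      refine integrable_lip_mul hf (R := 1 + s) ((integrable_PP ρ).comp_sub_right (s • e)) ?_
      intro ζ h
      have h1 := norm_le_one_of_box (PP_supp h)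
      have h2 : ‖ζ‖ ≤ ‖ζ - s • e‖ + ‖s • e‖ := by
        have := norm_add_le (ζ - s • e) (s • e)
        simpa using this
      have h3 : ‖s • e‖ ≤ s := by
        rw [norm_smul, Real.norm_eq_abs, abs_of_pos hs0]
        exact mul_le_of_le_one_right hs0.le hne
      linarith
    have hi2 : Integrable (fun ζ : U → ℝ => f (ζ + s • e) * PP ρ ζ) := by
      have h1 := hi1.comp_add_right (s • e)
      simpa using h1
    have hshift : ∫ ζ : U → ℝ, f (ζ + s • e) * PP ρ ζ = ∫ ζ : U → ℝ, f ζ * PP ρ (ζ - s • e) := by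
      have h1 := integral_add_right_eq_self (μ := (volume : Measure (U → ℝ)))
        (fun ζ : U → ℝ => f ζ * PP ρ (ζ - s • e)) (s • e)
      simpa using h1
    have e1 : ∀ ζ : U → ℝ, (((n : ℝ) + 1) • (f ζ - f (ζ + s • e))) * PP ρ ζ =
        ((n : ℝ) + 1) * (f ζ * PP ρ ζ) - ((n : ℝ) + 1) * (f (ζ + s • e) * PP ρ ζ) := by
      intro ζ
      rw [smul_eq_mul]; ring
    simp only [e1]
    rw [integral_sub (hiP.const_mul _) (hi2.const_mul _), integral_const_mul, integral_const_mul,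
      hshift, ← mul_sub, ← integral_sub hiP hi1]
    have h4 : ∫ ζ : U → ℝ, (f ζ * PP ρ ζ - f ζ * PP ρ (ζ - s • e)) ≤
        ∫ ζ : U → ℝ, s * ρ * (f ζ * PP ρ ζ + f ζ * PU ρ u ζ) := by
      refine integral_mono (hiP.sub hi1) ((hiP.add hiU).const_mul _) fun ζ => ?_
      have h5 := mul_le_mul_of_nonneg_left (PP_shift hρ hs0.le u ζ) (h0 ζ)
      simp only
      rw [he]
      linarith
    rw [integral_const_mul] at h4
    have h6 : ∫ ζ : U → ℝ, (f ζ * PP ρ ζ + f ζ * PU ρ u ζ) =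
        ∫ ζ : U → ℝ, f ζ * (PP ρ ζ + PU ρ u ζ) := by
      congr 1; funext ζ; ring
    rw [h6] at h4
    have h7 := mul_le_mul_of_nonneg_left h4 hn.le
    refine h7.trans (le_of_eq ?_)
    calc ((n : ℝ) + 1) * (s * ρ * ∫ ζ : U → ℝ, f ζ * (PP ρ ζ + PU ρ u ζ))
        = (s * ((n : ℝ) + 1)) * (ρ * ∫ ζ : U → ℝ, f ζ * (PP ρ ζ + PU ρ u ζ)) := by ring
      _ = _ := by rw [hsn, one_mul]
  have hlim : Tendsto (fun n : ℕ => ∫ ζ : U → ℝ,
      (((n : ℝ) + 1) • (f ζ - f (ζ + ((n : ℝ) + 1)⁻¹ • e))) * PP ρ ζ) atTop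
      (𝓝 (∫ ζ : U → ℝ, -(fderiv ℝ f ζ e) * PP ρ ζ)) := by
    refine tendsto_integral_of_dominated_convergence (fun ζ => C * PP ρ ζ) ?_
      ((integrable_PP ρ).const_mul _) ?_ ?_
    · intro n
      refine AEStronglyMeasurable.mul ?_ (integrable_PP ρ).aestronglyMeasurable
      refine Continuous.aestronglyMeasurable ?_
      have := hf.continuous
      fun_prop
    · intro n
      refine Eventually.of_forall fun ζ => ?_
      have hn : (0 : ℝ) < (n : ℝ) + 1 := by positivity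
      rw [norm_mul, norm_smul, Real.norm_eq_abs (PP ρ ζ), abs_of_nonneg (PP_nonneg hρ ζ)]
      refine mul_le_mul_of_nonneg_right ?_ (PP_nonneg hρ ζ)
      have h1 := hf.dist_le_mul ζ (ζ + ((n : ℝ) + 1)⁻¹ • e)
      rw [dist_eq_norm, dist_eq_norm] at h1
      have h2 : ‖ζ - (ζ + ((n : ℝ) + 1)⁻¹ • e)‖ ≤ ((n : ℝ) + 1)⁻¹ := by
        have : ζ - (ζ + ((n : ℝ) + 1)⁻¹ • e) = -(((n : ℝ) + 1)⁻¹ • e) := by abel
        rw [this, norm_neg, norm_smul, Real.norm_eq_abs, abs_of_pos (inv_pos.2 hn)]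
        exact mul_le_of_le_one_right (inv_pos.2 hn).le hne
      have h3 : ‖(n : ℝ) + 1‖ = (n : ℝ) + 1 := by rw [Real.norm_eq_abs, abs_of_pos hn]
      rw [h3]
      calc ((n : ℝ) + 1) * ‖f ζ - f (ζ + ((n : ℝ) + 1)⁻¹ • e)‖
          ≤ ((n : ℝ) + 1) * (C * ((n : ℝ) + 1)⁻¹) := by
            refine mul_le_mul_of_nonneg_left (h1.trans ?_) hn.le
            exact mul_le_mul_of_nonneg_left h2 C.2
        _ = C := by field_simp
    · filter_upwards [hf.ae_differentiableAt] with ζ hζ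
      have h1 := hζ.hasFDerivAt.lim e (c := fun n : ℕ => (n : ℝ) + 1) (l := atTop) ?_
      · have h2 := h1.neg.mul_const (PP ρ ζ)
        refine h2.congr fun n => ?_
        simp only [smul_eq_mul]
        ring
      · have h3 : Tendsto (fun n : ℕ => (n : ℝ) + 1) atTop atTop :=
          tendsto_natCast_atTop_atTop.atTop_add tendsto_const_nhds
        exact tendsto_norm_atTop_atTop.comp h3
  have h8 : ∫ ζ : U → ℝ, -(fderiv ℝ f ζ e) * PP ρ ζ = -∫ ζ : U → ℝ, fderiv ℝ f ζ e * PP ρ ζ := by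
    rw [← integral_neg]
    congr 1; funext ζ; ring
  rw [← h8]
  exact le_of_tendsto' hlim key

end Pool.Agent.Lib37.MAP
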