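import Pool.Agent.Lib_helper37.MAP.P1

/-!
Assembly: averaging the algorithms over random cut families.
-/

namespace Pool.Agent.Lib37.MAP

open MeasureTheory Finset Filter Topology

/-- the average of finitely many online algorithms -/
noncomputable def avgAlg {M : Type*} [Fintype M] {x₀ : M → ℝ} (_hx : x₀ ∈ stdSimplex ℝ M)
    {Ω : Type*} [Fintype Ω] [Nonempty Ω] (A : Ω → OnlineAlgorithm M x₀) :
    OnlineAlgorithm M x₀ where
  alloc r t i := (∑ ω, (A ω).alloc r t i) / Fintype.card Ω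
  mem r t := by
    have hN : (0 : ℝ) < Fintype.card Ω := by exact_mod_cast Fintype.card_pos
    refine ⟨fun i => div_nonneg (Finset.sum_nonneg fun ω _ => ((A ω).mem r t).1 i) hN.le, ?_⟩
    rw [← Finset.sum_div, Finset.sum_comm]
    simp only [((A _).mem r t).2]
    rw [Finset.sum_const, Finset.card_univ, nsmul_eq_mul, mul_one, div_self hN.ne']
  start r := by
    have hN : (0 : ℝ) < Fintype.card Ω := by exact_mod_cast Fintype.card_pos
    funext i
    simp only [(A _).start r]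
    rw [Finset.sum_const, Finset.card_univ, nsmul_eq_mul]
    field_simp
  online r r' t h := by
    funext i
    simp only [(A _).online r r' t h]

lemma convex_average {c : ℝ → ℝ} (hc : ConvexOn ℝ (Set.Icc 0 1) c) {Ω : Type*} [Fintype Ω]
    [Nonempty Ω] {x : Ω → ℝ} (hx : ∀ ω, x ω ∈ Set.Icc (0 : ℝ) 1) :
    (Fintype.card Ω : ℝ) * c ((∑ ω, x ω) / Fintype.card Ω) ≤ ∑ ω, c (x ω) := by
  have hN : (0 : ℝ) < Fintype.card Ω := by exact_mod_cast Fintype.card_pos
  have h1 := hc.map_sum_le (t := Finset.univ) (w := fun _ : Ω => (Fintype.card Ω : ℝ)⁻¹)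
    (p := x) (fun _ _ => by positivity) (by
      rw [Finset.sum_const, Finset.card_univ, nsmul_eq_mul, mul_inv_cancel₀ hN.ne'])
    (fun ω _ => hx ω)
  simp only [smul_eq_mul, ← Finset.mul_sum] at h1
  have h2 : (Fintype.card Ω : ℝ)⁻¹ * ∑ ω, x ω = (∑ ω, x ω) / Fintype.card Ω := by
    rw [div_eq_mul_inv, mul_comm]
  rw [h2] at h1
  have h3 := mul_le_mul_of_nonneg_left h1 hN.le
  rw [← mul_assoc, mul_inv_cancel₀ hN.ne', one_mul] at h3
  exact h3

lemma mem_Icc_of_simplex {M : Type*} [Fintype M] {x : M → ℝ} (hx : x ∈ stdSimplex ℝ M) (i : M) :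
    x i ∈ Set.Icc (0 : ℝ) 1 := by
  refine ⟨hx.1 i, ?_⟩
  rw [← hx.2]
  exact Finset.single_le_sum (fun j _ => hx.1 j) (Finset.mem_univ i)

lemma avgAlg_cost {M : Type*} [Fintype M] {x₀ : M → ℝ} (hx : x₀ ∈ stdSimplex ℝ M)
    {Ω : Type*} [Fintype Ω] [Nonempty Ω] (A : Ω → OnlineAlgorithm M x₀) {d : M → M → ℝ}
    (hd : ∀ i j, 0 ≤ d i j) (r : ℕ → Task M) (N : ℕ) :
    (Fintype.card Ω : ℝ) * totalCost d r N ((avgAlg hx A).alloc r) ≤
      ∑ ω, totalCost d r N ((A ω).alloc r) := by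
  unfold totalCost
  rw [Finset.sum_comm, Finset.mul_sum]
  refine Finset.sum_le_sum fun t _ => ?_
  rw [mul_add, Finset.sum_add_distrib]
  refine add_le_add ?_ ?_
  · exact transport_average hd (fun ω => (A ω).mem r t) (fun ω => (A ω).mem r (t + 1))
  · rw [Finset.mul_sum, Finset.sum_comm]
    refine Finset.sum_le_sum fun i _ => ?_
    exact convex_average ((r t).convex i) fun ω => mem_Icc_of_simplex ((A ω).mem r (t + 1)) i

/-- lower bound for the normalising constant -/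
lemma kernel_mass {ρ : ℝ} (hρ : 0 < ρ) : Real.exp (ρ / 2) / 2 - 1 ≤ ∫ z, pk ρ z := by
  rw [integral_pk hρ]
  have h1 : Real.exp ρ = Real.exp (ρ / 2) * Real.exp (ρ / 2) := by
    rw [← Real.exp_add]; congr 1; ring
  have h2 : 1 + ρ / 2 ≤ Real.exp (ρ / 2) := by
    have := Real.add_one_le_exp (ρ / 2); linarith
  have h3 : Real.exp (ρ / 2) / 2 ≤ (Real.exp ρ - 1) / ρ := by
    rw [le_div_iff₀ hρ, h1]
    nlinarith
  linarith

universe u

theorem main_of_emb (hemb : EmbStatement.{u}) : ∃ A : ℝ, ∀ (M : Type u) [Fintype M]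
    [MetricSpace M], 2 ≤ Fintype.card M → ∀ x₀ ∈ stdSimplex ℝ M,
    ∃ alg : OnlineAlgorithm M x₀,
      IsCompetitive (fun i j => dist i j) alg (A * (Real.log (Fintype.card M)) ^ 4) := by
  classical
  obtain ⟨K₀, hK₀⟩ := hemb
  -- enlarge the constant
  set K : ℝ := max K₀ 1 with hK
  have hK1 : 1 ≤ K := le_max_right _ _
  have hKK : K₀ ≤ K := le_max_left _ _
  set C₁ : ℝ := 2 * (Real.log (4 * K) / Real.log 2) + 4 with hC₁
  have hlog2 : 0 < Real.log 2 := Real.log_pos (by norm_num)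
  have hlog2' : (1 : ℝ) / 2 < Real.log 2 := by
    have := Real.log_two_gt_d9; linarith
  have hC₁0 : 0 < C₁ := by
    have : 0 ≤ Real.log (4 * K) := Real.log_nonneg (by linarith)
    positivity
  refine ⟨(4 + 2 * C₁ * (K + 2)) * (K + 4), ?_⟩
  intro M _ _ hM x₀ hx
  obtain ⟨Ω, U, _, _, _, T, w, h, hw, hsel, hh, hhK, hU, hdom, havg⟩ := hK₀ M hM
  have hn : (2 : ℝ) ≤ Fintype.card M := by exact_mod_cast hM
  set n : ℝ := (Fintype.card M : ℝ) with hn'
  set L : ℝ := Real.log n with hL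
  have hL2 : Real.log 2 ≤ L := Real.log_le_log (by norm_num) hn
  have hL0 : 0 < L := by linarith
  have hL12 : 1 / 2 < L := by linarith
  have hN : (0 : ℝ) < Fintype.card Ω := by exact_mod_cast Fintype.card_pos
  -- the parameter
  set ρ : ℝ := 2 * Real.log (4 * K * n ^ 2) with hρdef
  have hKn : 1 ≤ K * n ^ 2 := by
    have h1 : (1 : ℝ) ≤ n ^ 2 := by nlinarith
    nlinarith
  have hρ0 : 0 < ρ := by
    have : 0 < Real.log (4 * K * n ^ 2) := Real.log_pos (by nlinarith)
    positivity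
  have hmass : K * n ^ 2 ≤ ∫ z, pk ρ z := by
    have h1 := kernel_mass hρ0
    have h2 : Real.exp (ρ / 2) = 4 * K * n ^ 2 := by
      rw [hρdef, mul_div_cancel_left₀ _ (by norm_num : (2 : ℝ) ≠ 0), Real.exp_log]
      nlinarith
    rw [h2] at h1
    linarith
  have hA0 : 0 < ∫ z, pk ρ z := by linarith
  have hZ : 0 < ∫ ζ : U → ℝ, PP ρ ζ := by
    rw [integral_PP]; positivity
  have hUA : (Fintype.card U : ℝ) ≤ ∫ z, pk ρ z := by
    refine hU.trans (le_trans ?_ hmass)
    exact mul_le_mul_of_nonneg_right hKK (by positivity)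
  have hρL : ρ ≤ C₁ * L := by
    have h1 : Real.log (4 * K * n ^ 2) = Real.log (4 * K) + 2 * L := by
      rw [Real.log_mul (by positivity) (by positivity), Real.log_pow, hL]
      norm_num
    have h2 : Real.log (4 * K) ≤ Real.log (4 * K) / Real.log 2 * L := by
      have h3 : 0 ≤ Real.log (4 * K) := Real.log_nonneg (by linarith)
      rw [div_mul_eq_mul_div, le_div_iff₀ hlog2]
      exact mul_le_mul_of_nonneg_left hL2 h3
    rw [hρdef, h1, hC₁]
    linarith
  have hhL : (h : ℝ) + 1 ≤ (K + 2) * L := by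
    have h1 : K₀ * L ≤ K * L := mul_le_mul_of_nonneg_right hKK hL0.le
    linarith
  set R : ℝ := 1 + 2 * ρ * (h + 1) with hR
  have hh0 : (0 : ℝ) ≤ (h : ℝ) + 1 := by positivity
  have hR0 : 0 ≤ R := by positivity
  have hRL : R ≤ (4 + 2 * C₁ * (K + 2)) * L ^ 2 := by
    have h1 : ρ * (h + 1) ≤ (C₁ * L) * ((K + 2) * L) :=
      mul_le_mul hρL hhL hh0 (by positivity)
    have h2 : 1 ≤ 4 * L ^ 2 := by nlinarith
    rw [hR]
    nlinarith
  -- the algorithms
  choose sel hsel1 using hsel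
  have hc : ∀ ω, CutFam (T ω) (w ω) (sel ω) := fun ω =>
    ⟨hw ω, fun j => (hsel1 ω j).1, fun j => (hsel1 ω j).2⟩
  refine ⟨avgAlg hx fun ω => algo (hc ω) hρ0.le hZ hM hx, ?_⟩
  set β : ℝ := ∑ ω, (R * (∑ u, w ω u) + 4 * (∑ u, w ω u) + 1) with hβ
  set B : ℝ := (4 + 2 * C₁ * (K + 2)) * (K + 4) * L ^ 4 with hB
  have hB0 : 0 ≤ B := by positivity
  have hRB : R * ((K + 4) * L ^ 2) ≤ B := by
    have := mul_le_mul_of_nonneg_right hRL (by positivity : 0 ≤ (K + 4) * L ^ 2)
    refine this.trans (le_of_eq ?_)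
    rw [hB]; ring
  refine ⟨β / Fintype.card Ω + B, ?_⟩
  intro r N y hy0 hy
  have hd : ∀ i j : M, 0 ≤ dist i j := fun i j => dist_nonneg
  -- near optimal plans
  have hδ : (0 : ℝ) < ((N : ℝ) + 1)⁻¹ := by positivity
  choose γ hγ hγc using fun t => exists_plan (d := fun i j : M => dist i j) (hy t) (hy (t + 1)) hδ
  set sv : ℝ := ∑ t ∈ range N, ∑ i, (r t).cost i (y (t + 1) i) with hsv
  have hsv0 : 0 ≤ sv := Finset.sum_nonneg fun t _ => Finset.sum_nonneg fun i _ =>
    (r t).nonneg i _ (mem_Icc_of_simplex (hy (t + 1)) i)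
  set pc : ℝ := ∑ t ∈ range N, planCost (fun i j : M => dist i j) (γ t) with hpc
  have hpc0 : 0 ≤ pc := Finset.sum_nonneg fun t _ => planCost_nonneg hd (hγ t).nonneg
  have hopt : pc + sv ≤ totalCost (fun i j : M => dist i j) r N y + 1 := by
    unfold totalCost
    rw [Finset.sum_add_distrib, ← hsv]
    have h1 : pc ≤ ∑ t ∈ range N, (transport (fun i j : M => dist i j) (y t) (y (t + 1)) +
        ((N : ℝ) + 1)⁻¹) := Finset.sum_le_sum fun t _ => (hγc t).le
    rw [Finset.sum_add_distrib, Finset.sum_const, Finset.card_range, nsmul_eq_mul] at h1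
    have h2 : (N : ℝ) * ((N : ℝ) + 1)⁻¹ ≤ 1 := by
      rw [← div_eq_mul_inv, div_le_one (by positivity)]
      linarith
    linarith
  -- costs of the algorithms
  have hcost : ∀ ω, totalCost (fun i j : M => dist i j) r N
      ((algo (hc ω) hρ0.le hZ hM hx).alloc r) ≤
      R * (∑ t ∈ range N, planCost (cutDist (T ω) (w ω)) (γ t) + sv) +
        (R * (∑ u, w ω u) + 4 * (∑ u, w ω u) + 1) := by
    intro ω
    have h1 := algo_cost (hc ω) hρ0.le hA0 hUA hZ (hh ω) hM hx r N hy0 hy hγ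
    rw [Finset.sum_add_distrib, ← hsv, ← hR] at h1
    refine le_trans ?_ h1
    unfold totalCost
    refine Finset.sum_le_sum fun t _ => add_le_add ?_ le_rfl
    exact transport_mono hd (hdom ω) ((algo (hc ω) hρ0.le hZ hM hx).mem r t)
      ((algo (hc ω) hρ0.le hZ hM hx).mem r (t + 1))
  have hplans : ∑ ω, ∑ t ∈ range N, planCost (cutDist (T ω) (w ω)) (γ t) ≤
      (Fintype.card Ω : ℝ) * (K * L ^ 2 * pc) := by
    rw [Finset.sum_comm, hpc, Finset.mul_sum, Finset.mul_sum]
    refine Finset.sum_le_sum fun t _ => ?_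
    unfold planCost
    rw [Finset.sum_comm, Finset.mul_sum, Finset.mul_sum]
    refine Finset.sum_le_sum fun i _ => ?_
    rw [Finset.sum_comm, Finset.mul_sum, Finset.mul_sum]
    refine Finset.sum_le_sum fun j _ => ?_
    rw [← Finset.mul_sum]
    have h1 := mul_le_mul_of_nonneg_left (havg i j) ((hγ t).nonneg i j)
    refine h1.trans ?_
    have h2 : K₀ * L ^ 2 * dist i j ≤ K * L ^ 2 * dist i j :=
      mul_le_mul_of_nonneg_right (mul_le_mul_of_nonneg_right hKK (by positivity)) dist_nonneg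
    have h3 := mul_le_mul_of_nonneg_left h2 (mul_nonneg hN.le ((hγ t).nonneg i j))
    nlinarith
  have hsum : (Fintype.card Ω : ℝ) * totalCost (fun i j : M => dist i j) r N
      ((avgAlg hx fun ω => algo (hc ω) hρ0.le hZ hM hx).alloc r) ≤
      (Fintype.card Ω : ℝ) * (R * (K * L ^ 2 * pc + sv)) + β := by
    refine (avgAlg_cost hx _ hd r N).trans ?_
    refine (Finset.sum_le_sum fun ω _ => hcost ω).trans ?_
    rw [Finset.sum_add_distrib, ← Finset.mul_sum, Finset.sum_add_distrib, ← hβ,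
      Finset.sum_const, Finset.card_univ, nsmul_eq_mul]
    have h1 := mul_le_mul_of_nonneg_left hplans hR0
    nlinarith
  have hfin : R * (K * L ^ 2 * pc + sv) ≤ B * (pc + sv) := by
    have h1 : K * L ^ 2 * pc + sv ≤ (K + 4) * L ^ 2 * (pc + sv) := by
      have e0 : (K + 4) * L ^ 2 = K * L ^ 2 + 4 * L ^ 2 := by ring
      have e1 : 1 ≤ 4 * L ^ 2 := by
        have : (1 / 2 : ℝ) * (1 / 2) ≤ L * L :=
          mul_le_mul hL12.le hL12.le (by norm_num) hL0.le
        rw [pow_two]; linarith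
      have e2 : 0 ≤ K * L ^ 2 := by positivity
      have h2 : 1 ≤ (K + 4) * L ^ 2 := by rw [e0]; linarith
      have h3 : sv ≤ (K + 4) * L ^ 2 * sv := le_mul_of_one_le_left hsv0 h2
      have h4 : K * L ^ 2 * pc ≤ (K + 4) * L ^ 2 * pc :=
        mul_le_mul_of_nonneg_right (by rw [e0]; linarith) hpc0
      rw [mul_add]
      exact add_le_add h4 h3
    calc R * (K * L ^ 2 * pc + sv) ≤ R * ((K + 4) * L ^ 2 * (pc + sv)) :=
          mul_le_mul_of_nonneg_left h1 hR0
      _ = R * ((K + 4) * L ^ 2) * (pc + sv) := by ring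
      _ ≤ B * (pc + sv) := mul_le_mul_of_nonneg_right hRB (by linarith)
  have hfin2 : totalCost (fun i j : M => dist i j) r N
      ((avgAlg hx fun ω => algo (hc ω) hρ0.le hZ hM hx).alloc r) ≤
      R * (K * L ^ 2 * pc + sv) + β / Fintype.card Ω := by
    rw [← mul_le_mul_iff_right₀ hN, mul_add, mul_div_cancel₀ _ hN.ne']
    exact hsum
  refine hfin2.trans ?_
  have h5 : B * (pc + sv) ≤ B * (totalCost (fun i j : M => dist i j) r N y + 1) :=
    mul_le_mul_of_nonneg_left hopt hB0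
  linarith

end Pool.Agent.Lib37.MAP
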