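import Pool.Agent.Lib_helper37.MAP.Cut

/-!
The movement cost of one step.
-/

namespace Pool.Agent.Lib37.MAP

open MeasureTheory Finset Filter Topology

variable {M U : Type*} [Fintype M] [DecidableEq M] [Fintype U] [DecidableEq U]
  {T : U → Finset M} {w : U → ℝ} {sel : M → U}

omit [Fintype M] [Fintype U] [DecidableEq U] in
lemma abs_ind_sub (u : U) (i j : M) :
    |(if i ∈ T u then (1 : ℝ) else 0) - (if j ∈ T u then (1 : ℝ) else 0)| =
      ind T u i + ind T u j - 2 * (ind T u i * ind T u j) := by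
  unfold ind
  split_ifs <;> norm_num

omit [DecidableEq U] in
lemma sum_cut (m : M → ℝ) (hm : ∑ j, m j = 0) (i : M) :
    ∑ j, m j * cutDist T w i j =
      ∑ u, (1 - 2 * ind T u i) * (w u * ∑ j, ind T u j * m j) := by
  unfold cutDist
  simp only [abs_ind_sub, Finset.mul_sum]
  rw [Finset.sum_comm]
  refine Finset.sum_congr rfl fun u _ => ?_
  have h1 : ∑ j, m j * (w u * (ind T u i + ind T u j - 2 * (ind T u i * ind T u j))) =
      w u * ind T u i * ∑ j, m j +
        ∑ j, (1 - 2 * ind T u i) * (w u * (ind T u j * m j)) := by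
    rw [Finset.mul_sum, ← Finset.sum_add_distrib]
    exact Finset.sum_congr rfl fun j _ => by ring
  rw [h1, hm]
  ring

omit [Fintype M] in
omit [DecidableEq U] in
lemma vav_congr {ρ : ℝ} {F F' : (M → ℝ) → ℝ} (hw : ∀ u, 0 ≤ w u)
    (h : ∀ θ ∈ Bset (cutDist T w), F θ = F' θ) : vav ρ (Fc T w F) = vav ρ (Fc T w F') := by
  unfold vav
  congr 2
  funext ζ
  by_cases hP : PP ρ ζ = 0
  · rw [hP]; simp
  · unfold Fc
    rw [h _ (Lm_mem hw (PP_supp hP))]

omit [Fintype M] in
lemma uav_congr {ρ : ℝ} {F F' : (M → ℝ) → ℝ} (hw : ∀ u, 0 ≤ w u)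
    (h : ∀ θ ∈ Bset (cutDist T w), F θ = F' θ) (u : U) :
    uav ρ (Fc T w F) u = uav ρ (Fc T w F') u := by
  unfold uav
  congr 2
  funext ζ
  by_cases hP : PU ρ u ζ = 0
  · rw [hP]; simp
  · unfold Fc
    rw [h _ (Lm_mem hw (PU_supp hP))]

omit [Fintype M] in
lemma JJ_congr {ρ : ℝ} {F F' : (M → ℝ) → ℝ} (hw : ∀ u, 0 ≤ w u)
    (h : ∀ θ ∈ Bset (cutDist T w), F θ = F' θ) (h' : ℝ) :
    JJ ρ T w h' F = JJ ρ T w h' F' := by
  unfold JJ
  rw [vav_congr hw h]
  simp only [uav_congr hw h]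

/-- adding one penalty -/
lemma move_one (hc : CutFam T w sel) {ρ : ℝ} (hρ : 0 ≤ ρ) (hZ : 0 < ∫ ζ : U → ℝ, PP ρ ζ)
    {h : ℕ} (hh : ∀ i, (univ.filter fun u => i ∈ T u).card ≤ h)
    {G : (M → ℝ) → ℝ} (hG : Good G) {f g : M → ℝ → ℝ} (hf : ∀ i, Pen (f i))
    (hg : ∀ i, Pen (g i)) {i : M} (hfi : ∀ b, f i b = 0) (hfg : ∀ j, j ≠ i → g j = f j) :
    transport (cutDist T w) (xg ρ T w sel (step (cutDist T w) G f))
      (xg ρ T w sel (step (cutDist T w) G g)) ≤
    2 * ρ * (JJ ρ T w h (step (cutDist T w) G f) - JJ ρ T w h (step (cutDist T w) G g)) -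
      (Psi T w (xg ρ T w sel (step (cutDist T w) G g)) -
        Psi T w (xg ρ T w sel (step (cutDist T w) G f))) := by
  have hD : ∀ i j, 0 ≤ cutDist T w i j := cutDist_nonneg hc.nonneg
  set F1 := step (cutDist T w) G f with hF1
  set F2 := step (cutDist T w) G g with hF2
  have g1 : Good F1 := good_step hD hG hf
  have g2 : Good F2 := good_step hD hG hg
  have l1 := Fc_lip (T := T) hc.nonneg g1
  have l2 := Fc_lip (T := T) hc.nonneg g2
  have l3 : LipschitzWith (lipC w + lipC w) (fun ζ => Fc T w F1 ζ - Fc T w F2 ζ) := l1.sub l2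
  have hpos : ∀ ζ : U → ℝ, 0 ≤ Fc T w F1 ζ - Fc T w F2 ζ := by
    intro ζ
    rw [sub_nonneg]
    refine step_antitone_pen hD hG hg (fun j b hb => ?_) _
    by_cases hj : j = i
    · subst hj
      rw [hfi]
      exact (hg j).nonpos b hb
    · rw [hfg j hj]
  set x1 := xg ρ T w sel F1 with hx1
  set x2 := xg ρ T w sel F2 with hx2
  have m1 : x1 ∈ stdSimplex ℝ M := xg_mem hc hρ hZ g1
  have m2 : x2 ∈ stdSimplex ℝ M := xg_mem hc hρ hZ g2
  have hle : ∀ j, j ≠ i → x2 j ≤ x1 j := by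
    intro j hj
    have h1 : 0 ≤ dav ρ (fun ζ => Fc T w F1 ζ - Fc T w F2 ζ) (vdir w sel j) := by
      refine le_dav hρ hZ l3 fun ζ s hs _ => ?_
      rw [mul_zero]
      unfold Fc
      rw [map_add, map_smul, Lm_vdir hc]
      have h2 : Lm T w ζ ≤ Lm T w ζ + s • (Pi.single j (1 : ℝ) : M → ℝ) := by
        intro k
        simp only [Pi.add_apply, Pi.smul_apply, smul_eq_mul]
        have : (0 : ℝ) ≤ (Pi.single j (1 : ℝ) : M → ℝ) k := by
          by_cases h : k = j
          · subst h; simp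
          · simp [Pi.single_eq_of_ne h]
        nlinarith
      have h3 : Lm T w ζ i = (Lm T w ζ + s • (Pi.single j (1 : ℝ) : M → ℝ)) i := by
        simp [Pi.single_eq_of_ne (Ne.symm hj)]
      have h4 := step_cross hD hG hf hg hfi hfg h2 h3
      rw [← hF1, ← hF2] at h4
      linarith
    rw [dav_sub l1 l2] at h1
    have h5 : x1 j = dav ρ (Fc T w F1) (vdir w sel j) := rfl
    have h6 : x2 j = dav ρ (Fc T w F2) (vdir w sel j) := rfl
    rw [h5, h6]
    linarith
  refine (transport_to_point hD cutDist_self cutDist_symm m1 m2 hle).trans ?_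
  have hsum : ∑ j, (x1 j - x2 j) = 0 := by
    rw [Finset.sum_sub_distrib, m1.2, m2.2, sub_self]
  rw [sum_cut (fun j => x1 j - x2 j) hsum]
  -- the derivative bound
  have hb : ∀ u, -(w u * ∑ j, ind T u j * (x1 j - x2 j)) ≤
      ρ * ((vav ρ (Fc T w F1) - vav ρ (Fc T w F2)) +
        (uav ρ (Fc T w F1) u - uav ρ (Fc T w F2) u)) := by
    intro u
    have h1 := dav_kernel hρ hZ l3 hpos u
    rw [dav_sub l1 l2, vav_sub l1 l2, uav_sub l1 l2, dav_Fc hc hρ hZ g1, dav_Fc hc hρ hZ g2] at h1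
    simp only [Lm_single] at h1
    refine le_trans (le_of_eq ?_) h1
    rw [Finset.mul_sum, ← Finset.sum_sub_distrib]
    congr 1
    exact Finset.sum_congr rfl fun j _ => by
      rw [← hx1, ← hx2]
      ring
  have hv0 : 0 ≤ vav ρ (Fc T w F1) - vav ρ (Fc T w F2) := by
    rw [← vav_sub l1 l2]
    exact vav_nonneg hρ fun ζ _ => hpos ζ
  have hu0 : ∀ u, 0 ≤ uav ρ (Fc T w F1) u - uav ρ (Fc T w F2) u := by
    intro u
    rw [← uav_sub l1 l2]
    exact uav_nonneg hρ (fun ζ _ => hpos ζ) u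
  set V := vav ρ (Fc T w F1) - vav ρ (Fc T w F2) with hV
  have e1 : ∑ u, (1 - 2 * ind T u i) * (w u * ∑ j, ind T u j * (x1 j - x2 j)) =
      2 * ∑ u, ind T u i * (-(w u * ∑ j, ind T u j * (x1 j - x2 j))) +
        ∑ u, w u * ∑ j, ind T u j * (x1 j - x2 j) := by
    rw [Finset.mul_sum, ← Finset.sum_add_distrib]
    exact Finset.sum_congr rfl fun u _ => by ring
  have e2 : ∑ u, w u * ∑ j, ind T u j * (x1 j - x2 j) = Psi T w x1 - Psi T w x2 := by
    unfold Psi
    rw [← Finset.sum_sub_distrib]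
    refine Finset.sum_congr rfl fun u _ => ?_
    rw [← mul_sub, ← Finset.sum_sub_distrib]
    congr 1
    exact Finset.sum_congr rfl fun j _ => by ring
  have e3 : ∑ u, ind T u i ≤ (h : ℝ) := by
    unfold ind
    rw [Finset.sum_ite, Finset.sum_const_zero, add_zero, Finset.sum_const, nsmul_eq_mul, mul_one]
    exact_mod_cast hh i
  have e4 : ∑ u, ind T u i * (-(w u * ∑ j, ind T u j * (x1 j - x2 j))) ≤
      ρ * (h * V + ∑ u, (uav ρ (Fc T w F1) u - uav ρ (Fc T w F2) u)) := by
    calc ∑ u, ind T u i * (-(w u * ∑ j, ind T u j * (x1 j - x2 j)))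
        ≤ ∑ u, (ρ * V * ind T u i + ρ * (uav ρ (Fc T w F1) u - uav ρ (Fc T w F2) u)) := by
          refine Finset.sum_le_sum fun u _ => ?_
          have h1 := mul_le_mul_of_nonneg_left (hb u) (ind_nonneg T u i)
          have h2 : ind T u i * (ρ * (uav ρ (Fc T w F1) u - uav ρ (Fc T w F2) u)) ≤
              ρ * (uav ρ (Fc T w F1) u - uav ρ (Fc T w F2) u) :=
            mul_le_of_le_one_left (mul_nonneg hρ (hu0 u)) (ind_le_one T u i)
          nlinarith
      _ = ρ * V * ∑ u, ind T u i +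
            ρ * ∑ u, (uav ρ (Fc T w F1) u - uav ρ (Fc T w F2) u) := by
          rw [Finset.sum_add_distrib, ← Finset.mul_sum, ← Finset.mul_sum]
      _ ≤ ρ * V * h + ρ * ∑ u, (uav ρ (Fc T w F1) u - uav ρ (Fc T w F2) u) := by
          have := mul_le_mul_of_nonneg_left e3 (mul_nonneg hρ hv0)
          linarith
      _ = _ := by ring
  have e5 : JJ ρ T w h F1 - JJ ρ T w h F2 =
      h * V + ∑ u, (uav ρ (Fc T w F1) u - uav ρ (Fc T w F2) u) := by
    unfold JJ
    rw [Finset.sum_sub_distrib, hV]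
    ring
  rw [e1, e2, e5]
  linarith

/-- the movement bound for a full step -/
lemma move_step (hc : CutFam T w sel) {ρ : ℝ} (hρ : 0 ≤ ρ) (hZ : 0 < ∫ ζ : U → ℝ, PP ρ ζ)
    {h : ℕ} (hh : ∀ i, (univ.filter fun u => i ∈ T u).card ≤ h)
    {G : (M → ℝ) → ℝ} (hG : Good G) {f : M → ℝ → ℝ} (hf : ∀ i, Pen (f i)) :
    transport (cutDist T w) (xg ρ T w sel G) (xg ρ T w sel (step (cutDist T w) G f)) ≤
    2 * ρ * (JJ ρ T w h G - JJ ρ T w h (step (cutDist T w) G f)) -
      (Psi T w (xg ρ T w sel (step (cutDist T w) G f)) - Psi T w (xg ρ T w sel G)) := by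
  have hD : ∀ i j, 0 ≤ cutDist T w i j := cutDist_nonneg hc.nonneg
  have hz : ∀ θ ∈ Bset (cutDist T w), step (cutDist T w) G (fun _ _ => 0) θ = G θ :=
    fun θ hθ => step_zero hD hG hθ
  -- partial penalties
  set fS : Finset M → M → ℝ → ℝ := fun S i b => if i ∈ S then f i b else 0 with hfS
  have hp : ∀ S i, Pen (fS S i) := by
    intro S i
    by_cases hi : i ∈ S
    · have : fS S i = f i := by funext b; simp [hfS, hi]
      rw [this]; exact hf i
    · have : fS S i = fun _ => 0 := by funext b; simp [hfS, hi]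
      rw [this]; exact pen_zero
  have key : ∀ S : Finset M,
      transport (cutDist T w) (xg ρ T w sel (step (cutDist T w) G (fun _ _ => 0)))
        (xg ρ T w sel (step (cutDist T w) G (fS S))) ≤
      2 * ρ * (JJ ρ T w h (step (cutDist T w) G (fun _ _ => 0)) -
        JJ ρ T w h (step (cutDist T w) G (fS S))) -
        (Psi T w (xg ρ T w sel (step (cutDist T w) G (fS S))) -
          Psi T w (xg ρ T w sel (step (cutDist T w) G (fun _ _ => 0)))) := by
    intro S
    induction S using Finset.induction_on with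
    | empty =>
      have h1 : fS ∅ = fun _ _ => 0 := by
        funext i b; simp [hfS]
      rw [h1]
      have h2 := transport_self hD cutDist_self
        (xg_mem hc hρ hZ (good_step hD hG (f := fun _ _ => 0) fun _ => pen_zero))
      linarith
    | insert i S hi ih =>
      have h1 := move_one hc hρ hZ hh hG (f := fS S) (g := fS (insert i S)) (hp S)
        (hp (insert i S)) (i := i) (fun b => by simp [hfS, hi]) (fun j hj => by
          funext b
          simp [hfS, hj])
      have h2 := transport_triangle hD (cutDist_triangle hc.nonneg)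
        (xg_mem hc hρ hZ (good_step hD hG (f := fun _ _ => 0) fun _ => pen_zero))
        (xg_mem hc hρ hZ (good_step hD hG (hp S)))
        (xg_mem hc hρ hZ (good_step hD hG (hp (insert i S))))
      linarith
  have h1 := key Finset.univ
  have h2 : fS Finset.univ = f := by
    funext i b; simp [hfS]
  rw [h2, xg_congr hc hz, JJ_congr hc.nonneg hz] at h1
  exact h1

end Pool.Agent.Lib37.MAP
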