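import Pool.Agent.Lib_helper37.MAP.Cut
import Pool.Agent.Lib_helper37.MAP.Defs

/-!
The service cost of one step.
-/

namespace Pool.Agent.Lib37.MAP

open MeasureTheory Finset Filter Topology

section general

variable {U : Type*} [Fintype U]

lemma dav_add_vav_le {ρ : ℝ} (hρ : 0 ≤ ρ) (hZ : 0 < ∫ ζ : U → ℝ, PP ρ ζ)
    {g g' : (U → ℝ) → ℝ} {C C' : NNReal} (hg : LipschitzWith C g) (hg' : LipschitzWith C' g')
    {η : U → ℝ} {κ : ℝ}
    (h : ∀ ζ, Box ζ → DifferentiableAt ℝ g ζ → fderiv ℝ g ζ η + g ζ ≤ g' ζ + κ) :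
    dav ρ g η + vav ρ g ≤ vav ρ g' + κ := by
  have h1 : ∫ ζ : U → ℝ, (fderiv ℝ g ζ η * PP ρ ζ + g ζ * PP ρ ζ) ≤
      ∫ ζ : U → ℝ, (g' ζ * PP ρ ζ + κ * PP ρ ζ) := by
    refine integral_mono_ae ((integrable_dav hg η).add (integrable_vav hg))
      ((integrable_vav hg').add ((integrable_PP ρ).const_mul κ)) ?_
    filter_upwards [hg.ae_differentiableAt] with ζ h1
    by_cases hP : PP ρ ζ = 0
    · simp [hP]
    · have h2 := mul_le_mul_of_nonneg_right (h ζ (PP_supp hP) h1) (PP_nonneg hρ ζ)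
      linarith
  rw [integral_add (integrable_dav hg η) (integrable_vav hg),
    integral_add (integrable_vav hg') ((integrable_PP ρ).const_mul κ), integral_const_mul] at h1
  unfold dav vav
  rw [← add_div, div_add' _ _ _ hZ.ne', div_le_div_iff_of_pos_right hZ]
  exact h1

end general

/-- subgradients of non-increasing convex functions at interior points -/
lemma exists_subgradient {c : ℝ → ℝ} (ha : AntitoneOn c (Set.Icc 0 1))
    (hc : ConvexOn ℝ (Set.Icc 0 1) c) {s : ℝ} (hs0 : 0 < s) (hs1 : s < 1) :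
    ∃ b : ℝ, 0 ≤ b ∧ ∀ t ∈ Set.Icc (0 : ℝ) 1, c s - b * (t - s) ≤ c t := by
  set S : Set ℝ := (fun t => (c s - c t) / (s - t)) '' Set.Ico 0 s with hS
  have h1m : (1 : ℝ) ∈ Set.Icc (0 : ℝ) 1 := by simp
  have h0m : (0 : ℝ) ∈ Set.Icc (0 : ℝ) 1 := by simp
  have hsm : s ∈ Set.Icc (0 : ℝ) 1 := ⟨hs0.le, hs1.le⟩
  have hub : ∀ t', t' ∈ Set.Ioc s 1 → (c t' - c s) / (t' - s) ∈ upperBounds S := by
    rintro t' ⟨ht1, ht2⟩ _ ⟨t, ⟨ht3, ht4⟩, rfl⟩
    exact hc.slope_mono_adjacent ⟨ht3, by linarith⟩ ⟨by linarith, ht2⟩ ht4 ht1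
  have hne : S.Nonempty := ⟨_, 0, ⟨le_rfl, hs0⟩, rfl⟩
  have hbdd : BddAbove S := ⟨_, hub 1 ⟨hs1, le_rfl⟩⟩
  refine ⟨-sSup S, ?_, ?_⟩
  · rw [neg_nonneg]
    refine (csSup_le hne (hub 1 ⟨hs1, le_rfl⟩)).trans ?_
    refine div_nonpos_of_nonpos_of_nonneg ?_ (by linarith)
    have := ha hsm h1m hs1.le
    linarith
  · intro t ht
    rcases lt_trichotomy t s with h | h | h
    · have h1 : (c s - c t) / (s - t) ≤ sSup S := le_csSup hbdd ⟨t, ⟨ht.1, h⟩, rfl⟩
      rw [div_le_iff₀ (by linarith)] at h1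
      linarith
    · rw [h]; simp
    · have h1 : sSup S ≤ (c t - c s) / (t - s) := csSup_le hne (hub t ⟨h, ht.2⟩)
      rw [le_div_iff₀ (by linarith)] at h1
      linarith

lemma exists_dual {c : ℝ → ℝ} (ha : AntitoneOn c (Set.Icc 0 1))
    (hc : ConvexOn ℝ (Set.Icc 0 1) c) {s : ℝ} (hs0 : 0 < s) (hs1 : s < 1) :
    ∃ b : ℝ, 0 ≤ b ∧ c s ≤ -(b * s) - phi c b := by
  obtain ⟨b, hb, h⟩ := exists_subgradient ha hc hs0 hs1
  refine ⟨b, hb, ?_⟩
  have h1 : phi c b ≤ -(b * s) - c s := by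
    refine phi_le fun t ht => ?_
    have := h t ht
    linarith
  linarith

variable {M U : Type*} [Fintype M] [DecidableEq M] [Fintype U] [DecidableEq U]
  {T : U → Finset M} {w : U → ℝ} {sel : M → U}

lemma serv_dual (hc : CutFam T w sel) {ρ : ℝ} (hρ : 0 ≤ ρ) (hZ : 0 < ∫ ζ : U → ℝ, PP ρ ζ)
    {G : (M → ℝ) → ℝ} (hG : Good G) {f : M → ℝ → ℝ} (hf : ∀ i, Pen (f i)) {b : M → ℝ}
    (hb : 0 ≤ b) :
    vav ρ (Fc T w (step (cutDist T w) G f)) -
      ∑ j, b j * xg ρ T w sel (step (cutDist T w) G f) j ≤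
      vav ρ (Fc T w G) + ∑ i, f i (b i) := by
  have hD : ∀ i j, 0 ≤ cutDist T w i j := cutDist_nonneg hc.nonneg
  set F := step (cutDist T w) G f with hF
  have g1 : Good F := good_step hD hG hf
  have l1 := Fc_lip (T := T) hc.nonneg g1
  have l2 := Fc_lip (T := T) hc.nonneg hG
  set η : U → ℝ := ∑ j, (-b j) • vdir w sel j with hη
  have hLη : Lm T w η = -b := by
    rw [hη, map_sum]
    simp only [map_smul, Lm_vdir hc]
    funext i
    simp only [Finset.sum_apply, Pi.smul_apply, smul_eq_mul, Pi.neg_apply]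
    rw [Finset.sum_eq_single i]
    · simp
    · intro j _ hj
      simp [Pi.single_eq_of_ne (Ne.symm hj)]
    · intro h
      exact absurd (Finset.mem_univ i) h
  have h1 : dav ρ (Fc T w F) η + vav ρ (Fc T w F) ≤ vav ρ (Fc T w G) + ∑ i, f i (b i) := by
    refine dav_add_vav_le hρ hZ l1 l2 fun ζ hζ hd => ?_
    have h2 : fderiv ℝ (Fc T w F) ζ η ≤ Fc T w F (ζ + η) - Fc T w F ζ := by
      refine fderiv_le_of hd fun s hs0 hs1 => ?_
      have h3 := g1.conv.2 (Set.mem_univ (Lm T w ζ)) (Set.mem_univ (Lm T w (ζ + η)))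
        (by linarith : 0 ≤ 1 - s) hs0.le (by ring)
      have h4 : (1 - s) • Lm T w ζ + s • Lm T w (ζ + η) = Lm T w (ζ + s • η) := by
        rw [map_add, map_add, map_smul]
        module
      rw [h4] at h3
      simp only [smul_eq_mul] at h3
      unfold Fc
      linarith
    have h5 : Fc T w F (ζ + η) ≤ Fc T w G ζ + ∑ i, f i (b i) := by
      unfold Fc
      rw [map_add, hLη, ← sub_eq_add_neg]
      exact step_shift hG hf (Lm_mem hc.nonneg hζ) hb
    linarith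
  have h2 : dav ρ (Fc T w F) η = -∑ j, b j * xg ρ T w sel F j := by
    rw [hη, dav_sum_dir l1, ← Finset.sum_neg_distrib]
    exact Finset.sum_congr rfl fun j _ => by rw [neg_mul]; rfl
  rw [h2] at h1
  linarith

/-- the service bound for a full step -/
lemma serv_step (hc : CutFam T w sel) {ρ : ℝ} (hρ : 0 ≤ ρ) (hZ : 0 < ∫ ζ : U → ℝ, PP ρ ζ)
    (hM : 2 ≤ Fintype.card M) {G : (M → ℝ) → ℝ} (hG : Good G) (r : Task M) {ε : ℝ}
    (hε0 : 0 < ε) (hε1 : ε ≤ 1) :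
    ∑ i, r.cost i ((1 - ε) * xg ρ T w sel (step (cutDist T w) G (fun i => phi (r.cost i))) i +
      ε * (Fintype.card M : ℝ)⁻¹) ≤
      vav ρ (Fc T w G) - vav ρ (Fc T w (step (cutDist T w) G (fun i => phi (r.cost i)))) +
        ε * ∑ i, r.cost i (Fintype.card M : ℝ)⁻¹ := by
  have hD : ∀ i j, 0 ≤ cutDist T w i j := cutDist_nonneg hc.nonneg
  have hf : ∀ i, Pen (phi (r.cost i)) := fun i => pen_phi (r.nonneg i)
  set F := step (cutDist T w) G (fun i => phi (r.cost i)) with hF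
  have g1 : Good F := good_step hD hG hf
  set x := xg ρ T w sel F with hx
  have mx : x ∈ stdSimplex ℝ M := xg_mem hc hρ hZ g1
  have hn : (2 : ℝ) ≤ Fintype.card M := by exact_mod_cast hM
  have hn0 : (0 : ℝ) < (Fintype.card M : ℝ)⁻¹ := inv_pos.2 (by linarith)
  have hn1 : (Fintype.card M : ℝ)⁻¹ < 1 := inv_lt_one_of_one_lt₀ (by linarith)
  have hx1 : ∀ i, x i ≤ 1 := by
    intro i
    rw [← mx.2]
    exact Finset.single_le_sum (fun j _ => mx.1 j) (Finset.mem_univ i)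
  have hz0 : ∀ i, 0 < (1 - ε) * x i + ε * (Fintype.card M : ℝ)⁻¹ := fun i =>
    add_pos_of_nonneg_of_pos (mul_nonneg (by linarith) (mx.1 i)) (mul_pos hε0 hn0)
  have hz1 : ∀ i, (1 - ε) * x i + ε * (Fintype.card M : ℝ)⁻¹ < 1 := by
    intro i
    have h1 : (1 - ε) * x i ≤ (1 - ε) * 1 := mul_le_mul_of_nonneg_left (hx1 i) (by linarith)
    have h2 : ε * (Fintype.card M : ℝ)⁻¹ < ε * 1 := mul_lt_mul_of_pos_left hn1 hε0
    linarith
  choose b hb0 hb using fun i => exists_dual (r.antitone i) (r.convex i) (hz0 i) (hz1 i)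
  have h1 := serv_dual hc hρ hZ hG hf (b := b) hb0
  rw [← hF, ← hx] at h1
  have h2 : ∀ i, -(b i * (Fintype.card M : ℝ)⁻¹) - phi (r.cost i) (b i) ≤
      r.cost i (Fintype.card M : ℝ)⁻¹ := by
    intro i
    have := le_phi (r.nonneg i) (b i) (s := (Fintype.card M : ℝ)⁻¹) ⟨hn0.le, hn1.le⟩
    linarith
  have h3 : vav ρ (Fc T w F) ≤ vav ρ (Fc T w G) := by
    have l1 := Fc_lip (T := T) hc.nonneg g1
    have l2 := Fc_lip (T := T) hc.nonneg hG
    rw [← sub_nonneg, ← vav_sub l2 l1]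
    refine vav_nonneg hρ fun ζ hζ => ?_
    rw [sub_nonneg]
    unfold Fc
    rw [← step_zero hD hG (Lm_mem hc.nonneg hζ)]
    exact step_antitone_pen hD hG hf (fun i b hb => (hf i).nonpos b hb) _
  have h4 : ∑ i, r.cost i ((1 - ε) * x i + ε * (Fintype.card M : ℝ)⁻¹) ≤
      ∑ i, ((1 - ε) * (-(b i * x i) - phi (r.cost i) (b i)) +
        ε * r.cost i (Fintype.card M : ℝ)⁻¹) := by
    refine Finset.sum_le_sum fun i _ => ?_
    have h5 := mul_le_mul_of_nonneg_left (h2 i) hε0.le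
    refine (hb i).trans ?_
    nlinarith
  refine h4.trans ?_
  have h6 : ∑ i, ((1 - ε) * (-(b i * x i) - phi (r.cost i) (b i)) +
        ε * r.cost i (Fintype.card M : ℝ)⁻¹) =
      (1 - ε) * (-(∑ i, b i * x i) - ∑ i, phi (r.cost i) (b i)) +
        ε * ∑ i, r.cost i (Fintype.card M : ℝ)⁻¹ := by
    rw [Finset.sum_add_distrib, ← Finset.mul_sum, ← Finset.mul_sum, Finset.sum_sub_distrib,
      Finset.sum_neg_distrib]
  rw [h6]
  have h7 : -(∑ i, b i * x i) - ∑ i, phi (r.cost i) (b i) ≤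
      vav ρ (Fc T w G) - vav ρ (Fc T w F) := by linarith
  have h8 := mul_le_mul_of_nonneg_left h7 (by linarith : 0 ≤ 1 - ε)
  have h9 : (1 - ε) * (vav ρ (Fc T w G) - vav ρ (Fc T w F)) ≤
      vav ρ (Fc T w G) - vav ρ (Fc T w F) :=
    mul_le_of_le_one_left (by linarith) (by linarith)
  linarith

end Pool.Agent.Lib37.MAP
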