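import Pool.Agent.Lib_helper37.MAP.Move
import Pool.Agent.Lib_helper37.MAP.Service

/-!
The online algorithm for cut metrics.
-/

namespace Pool.Agent.Lib37.MAP

open MeasureTheory Finset Filter Topology

variable {M U : Type*} [Fintype M]

/-- dual work functions -/
noncomputable def HH (D : M → M → ℝ) (x₀ : M → ℝ) (r : ℕ → Task M) : ℕ → (M → ℝ) → ℝ
  | 0 => fun θ => ∑ i, θ i * x₀ i
  | (t + 1) => step D (HH D x₀ r t) (fun i => phi ((r t).cost i))

lemma good_HH {D : M → M → ℝ} (hD : ∀ i j, 0 ≤ D i j) {x₀ : M → ℝ} (hx : x₀ ∈ stdSimplex ℝ M)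
    (r : ℕ → Task M) (t : ℕ) : Good (HH D x₀ r t) := by
  induction t with
  | zero => exact good_linear hx
  | succ t ih => exact good_step hD ih fun i => pen_phi ((r t).nonneg i)

lemma HH_congr (D : M → M → ℝ) (x₀ : M → ℝ) {r r' : ℕ → Task M} {t : ℕ}
    (h : ∀ s < t, r s = r' s) : HH D x₀ r t = HH D x₀ r' t := by
  induction t with
  | zero => rfl
  | succ t ih =>
    have h1 := ih fun s hs => h s (hs.trans (Nat.lt_succ_self t))
    have h2 := h t (Nat.lt_succ_self t)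
    simp only [HH]
    rw [h1, h2]

/-- weak duality along an offline path -/
lemma HH_weak {D : M → M → ℝ} (hD : ∀ i j, 0 ≤ D i j) (hDs : ∀ i j, D i j = D j i)
    {x₀ : M → ℝ} (r : ℕ → Task M) {y : ℕ → M → ℝ} {γ : ℕ → M → M → ℝ} (hy0 : y 0 = x₀)
    (hy : ∀ t, y t ∈ stdSimplex ℝ M) (hγ : ∀ t, IsPlan (y t) (y (t + 1)) (γ t)) (N : ℕ) :
    ∀ θ : M → ℝ, ∑ i, θ i * y N i -
      ∑ t ∈ range N, (planCost D (γ t) + ∑ i, (r t).cost i (y (t + 1) i)) ≤ HH D x₀ r N θ := by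
  induction N with
  | zero =>
    intro θ
    simp [HH, hy0]
  | succ N ih =>
    intro θ
    rw [Finset.sum_range_succ]
    exact step_weak hD hDs (fun i => (r N).nonneg i) (hy (N + 1)) (hγ N).nonneg (hγ N).row
      (hγ N).col ih θ

/-- the mixing parameter -/
noncomputable def epsT (r : Task M) (t : ℕ) : ℝ :=
  (1 / 2) ^ (t + 1) / (1 + ∑ i, r.cost i (Fintype.card M : ℝ)⁻¹)

lemma costn_nonneg (hM : 2 ≤ Fintype.card M) (r : Task M) :
    0 ≤ ∑ i, r.cost i (Fintype.card M : ℝ)⁻¹ := by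
  have hn : (2 : ℝ) ≤ Fintype.card M := by exact_mod_cast hM
  exact Finset.sum_nonneg fun i _ => r.nonneg i _
    ⟨(inv_pos.2 (by linarith)).le, (inv_lt_one_of_one_lt₀ (by linarith)).le⟩

lemma epsT_pos (hM : 2 ≤ Fintype.card M) (r : Task M) (t : ℕ) : 0 < epsT r t := by
  have := costn_nonneg hM r
  unfold epsT
  positivity

lemma epsT_le (hM : 2 ≤ Fintype.card M) (r : Task M) (t : ℕ) : epsT r t ≤ (1 / 2) ^ (t + 1) := by
  have := costn_nonneg hM r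
  unfold epsT
  rw [div_le_iff₀ (by positivity)]
  have h : (0 : ℝ) ≤ (1 / 2) ^ (t + 1) := by positivity
  nlinarith

lemma epsT_mul_le (hM : 2 ≤ Fintype.card M) (r : Task M) (t : ℕ) :
    epsT r t * ∑ i, r.cost i (Fintype.card M : ℝ)⁻¹ ≤ (1 / 2) ^ (t + 1) := by
  have := costn_nonneg hM r
  unfold epsT
  rw [div_mul_eq_mul_div, div_le_iff₀ (by positivity)]
  have h : (0 : ℝ) ≤ (1 / 2) ^ (t + 1) := by positivity
  nlinarith

lemma half_pow_le_one (t : ℕ) : ((1 : ℝ) / 2) ^ t ≤ 1 :=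
  pow_le_one₀ (by norm_num) (by norm_num)

lemma sum_half_pow_le (N : ℕ) : ∑ t ∈ range N, ((1 : ℝ) / 2) ^ (t + 1) ≤ 1 := by
  have h : ∑ t ∈ range N, ((1 : ℝ) / 2) ^ (t + 1) = 1 - (1 / 2) ^ N := by
    induction N with
    | zero => simp
    | succ N ih => rw [Finset.sum_range_succ, ih]; ring
  rw [h]
  have : (0 : ℝ) ≤ (1 / 2) ^ N := by positivity
  linarith

variable [DecidableEq M] [Fintype U] [DecidableEq U]
  {T : U → Finset M} {w : U → ℝ} {sel : M → U}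

/-- the averaged gradient at time `t` -/
noncomputable def xt (ρ : ℝ) (T : U → Finset M) (w : U → ℝ) (sel : M → U) (x₀ : M → ℝ)
    (r : ℕ → Task M) (t : ℕ) : M → ℝ := xg ρ T w sel (HH (cutDist T w) x₀ r t)

/-- the allocation of the algorithm -/
noncomputable def al (ρ : ℝ) (T : U → Finset M) (w : U → ℝ) (sel : M → U) (x₀ : M → ℝ)
    (r : ℕ → Task M) : ℕ → M → ℝ
  | 0 => x₀
  | (t + 1) => fun i => (1 - epsT (r t) t) * xt ρ T w sel x₀ r (t + 1) i +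
      epsT (r t) t * (Fintype.card M : ℝ)⁻¹

omit [DecidableEq M] in
lemma unif_mem (hM : 2 ≤ Fintype.card M) :
    (fun _ : M => (Fintype.card M : ℝ)⁻¹) ∈ stdSimplex ℝ M := by
  refine ⟨fun _ => by positivity, ?_⟩
  rw [Finset.sum_const, Finset.card_univ, nsmul_eq_mul]
  have : (Fintype.card M : ℝ) ≠ 0 := by
    have : (2 : ℝ) ≤ Fintype.card M := by exact_mod_cast hM
    positivity
  field_simp

lemma xt_mem (hc : CutFam T w sel) {ρ : ℝ} (hρ : 0 ≤ ρ) (hZ : 0 < ∫ ζ : U → ℝ, PP ρ ζ)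
    {x₀ : M → ℝ} (hx : x₀ ∈ stdSimplex ℝ M) (r : ℕ → Task M) (t : ℕ) :
    xt ρ T w sel x₀ r t ∈ stdSimplex ℝ M :=
  xg_mem hc hρ hZ (good_HH (cutDist_nonneg hc.nonneg) hx r t)

omit [Fintype M] [DecidableEq M] [Fintype U] [DecidableEq U] in
lemma mix_mem [Fintype M] {x u : M → ℝ} (hx : x ∈ stdSimplex ℝ M) (hu : u ∈ stdSimplex ℝ M)
    {ε : ℝ} (h0 : 0 ≤ ε) (h1 : ε ≤ 1) :
    (fun i => (1 - ε) * x i + ε * u i) ∈ stdSimplex ℝ M := by
  refine ⟨fun i => add_nonneg (mul_nonneg (by linarith) (hx.1 i)) (mul_nonneg h0 (hu.1 i)), ?_⟩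
  rw [Finset.sum_add_distrib, ← Finset.mul_sum, ← Finset.mul_sum, hx.2, hu.2]
  ring

omit [DecidableEq M] in
lemma epsT_le_one (hM : 2 ≤ Fintype.card M) (r : Task M) (t : ℕ) : epsT r t ≤ 1 :=
  (epsT_le hM r t).trans (half_pow_le_one _)

lemma al_mem (hc : CutFam T w sel) {ρ : ℝ} (hρ : 0 ≤ ρ) (hZ : 0 < ∫ ζ : U → ℝ, PP ρ ζ)
    (hM : 2 ≤ Fintype.card M) {x₀ : M → ℝ} (hx : x₀ ∈ stdSimplex ℝ M) (r : ℕ → Task M) (t : ℕ) :
    al ρ T w sel x₀ r t ∈ stdSimplex ℝ M := by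
  cases t with
  | zero => exact hx
  | succ t =>
    exact mix_mem (xt_mem hc hρ hZ hx r (t + 1)) (unif_mem hM) (epsT_pos hM (r t) t).le
      (epsT_le_one hM (r t) t)

lemma dist_al (hc : CutFam T w sel) {ρ : ℝ} (hρ : 0 ≤ ρ)
    (hZ : 0 < ∫ ζ : U → ℝ, PP ρ ζ)
    (hM : 2 ≤ Fintype.card M) {x₀ : M → ℝ} (hx : x₀ ∈ stdSimplex ℝ M) (r : ℕ → Task M) (t : ℕ) :
    transport (cutDist T w) (xt ρ T w sel x₀ r t) (al ρ T w sel x₀ r t) ≤
      (1 / 2) ^ t * ∑ u, w u := by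
  have hW : 0 ≤ ∑ u, w u := Finset.sum_nonneg fun u _ => hc.nonneg u
  cases t with
  | zero =>
    have h1 : xt ρ T w sel x₀ r 0 = x₀ := xg_linear hc hρ hZ hx
    rw [h1]
    refine (transport_self (cutDist_nonneg hc.nonneg) cutDist_self hx).trans ?_
    simpa using hW
  | succ t =>
    refine (transport_mix (cutDist_nonneg hc.nonneg) cutDist_self (cutDist_le_sum hc.nonneg)
      (xt_mem hc hρ hZ hx r (t + 1)) (unif_mem hM) (epsT_pos hM _ _).le
      (epsT_le_one hM _ _)).trans ?_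
    exact mul_le_mul_of_nonneg_right (epsT_le hM _ _) hW

/-- the algorithm -/
noncomputable def algo (hc : CutFam T w sel) {ρ : ℝ} (hρ : 0 ≤ ρ)
    (hZ : 0 < ∫ ζ : U → ℝ, PP ρ ζ) (hM : 2 ≤ Fintype.card M) {x₀ : M → ℝ}
    (hx : x₀ ∈ stdSimplex ℝ M) : OnlineAlgorithm M x₀ where
  alloc r t := al ρ T w sel x₀ r t
  mem r t := al_mem hc hρ hZ hM hx r t
  start r := rfl
  online r r' t h := by
    cases t with
    | zero => rfl
    | succ t =>
      simp only [al, xt]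
      rw [HH_congr (cutDist T w) x₀ h, h t (Nat.lt_succ_self t)]

/-- the algorithm for cut metrics -/
theorem algo_cost (hc : CutFam T w sel) {ρ : ℝ} (hρ : 0 ≤ ρ) (hA0 : 0 < ∫ z, pk ρ z)
    (hA : (Fintype.card U : ℝ) ≤ ∫ z, pk ρ z) (hZ : 0 < ∫ ζ : U → ℝ, PP ρ ζ)
    {h : ℕ} (hh : ∀ i, (univ.filter fun u => i ∈ T u).card ≤ h)
    (hM : 2 ≤ Fintype.card M) {x₀ : M → ℝ} (hx : x₀ ∈ stdSimplex ℝ M)
    (r : ℕ → Task M) (N : ℕ) {y : ℕ → M → ℝ} {γ : ℕ → M → M → ℝ} (hy0 : y 0 = x₀)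
    (hy : ∀ t, y t ∈ stdSimplex ℝ M) (hγ : ∀ t, IsPlan (y t) (y (t + 1)) (γ t)) :
    totalCost (cutDist T w) r N ((algo hc hρ hZ hM hx).alloc r) ≤
      (1 + 2 * ρ * (h + 1)) * ∑ t ∈ range N, (planCost (cutDist T w) (γ t) +
        ∑ i, (r t).cost i (y (t + 1) i)) +
      ((1 + 2 * ρ * (h + 1)) * (∑ u, w u) + 4 * (∑ u, w u) + 1) := by
  have hW : 0 ≤ ∑ u, w u := Finset.sum_nonneg fun u _ => hc.nonneg u
  have hD : ∀ i j, 0 ≤ cutDist T w i j := cutDist_nonneg hc.nonneg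
  set H := HH (cutDist T w) x₀ r with hH
  have gH : ∀ t, Good (H t) := good_HH hD hx r
  have lH : ∀ t, LipschitzWith (lipC w) (Fc T w (H t)) := fun t => Fc_lip hc.nonneg (gH t)
  set x := xt ρ T w sel x₀ r with hxt
  set a := al ρ T w sel x₀ r with ha
  have mx : ∀ t, x t ∈ stdSimplex ℝ M := xt_mem hc hρ hZ hx r
  have ma : ∀ t, a t ∈ stdSimplex ℝ M := al_mem hc hρ hZ hM hx r
  set Wc := ∑ t ∈ range N, (planCost (cutDist T w) (γ t) +
        ∑ i, (r t).cost i (y (t + 1) i)) with hWc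
  -- offline bound
  have hoff : ∀ ζ : U → ℝ, Box ζ → Fc T w (H 0) ζ - Fc T w (H N) ζ ≤ (∑ u, w u) + Wc := by
    intro ζ hζ
    have h1 := HH_weak hD cutDist_symm r hy0 hy hγ N (Lm T w ζ)
    have h2 : Fc T w (H 0) ζ = ∑ i, Lm T w ζ i * x₀ i := rfl
    have h3 : ∑ i, Lm T w ζ i * x₀ i ≤ ∑ u, w u := by
      calc ∑ i, Lm T w ζ i * x₀ i ≤ ∑ i, (∑ u, w u) * x₀ i :=
            Finset.sum_le_sum fun i _ =>
              mul_le_mul_of_nonneg_right (Lm_le hc.nonneg hζ i) (hx.1 i)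
        _ = ∑ u, w u := by rw [← Finset.mul_sum, hx.2, mul_one]
    have h4 : 0 ≤ ∑ i, Lm T w ζ i * y N i :=
      Finset.sum_nonneg fun i _ => mul_nonneg (Lm_nonneg hc.nonneg hζ i) ((hy N).1 i)
    have h5 : Fc T w (H N) ζ = HH (cutDist T w) x₀ r N (Lm T w ζ) := rfl
    rw [h2, h5]
    linarith
  have hWc0 : 0 ≤ Wc := by
    refine Finset.sum_nonneg fun t _ => add_nonneg (planCost_nonneg hD (hγ t).nonneg) ?_
    refine Finset.sum_nonneg fun i _ => (r t).nonneg i _ ⟨(hy (t + 1)).1 i, ?_⟩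
    rw [← (hy (t + 1)).2]
    exact Finset.single_le_sum (fun j _ => (hy (t + 1)).1 j) (Finset.mem_univ i)
  have l3 : LipschitzWith (lipC w + lipC w) (fun ζ => Fc T w (H 0) ζ - Fc T w (H N) ζ) :=
    (lH 0).sub (lH N)
  have hI : vav ρ (Fc T w (H 0)) - vav ρ (Fc T w (H N)) ≤ (∑ u, w u) + Wc := by
    rw [← vav_sub (lH 0) (lH N)]
    exact vav_le hρ hZ l3 hoff
  have hJ : JJ ρ T w h (H 0) - JJ ρ T w h (H N) ≤ (h + 1) * ((∑ u, w u) + Wc) := by
    unfold JJ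
    have h1 : ∀ u, uav ρ (Fc T w (H 0)) u - uav ρ (Fc T w (H N)) u ≤
        ((∑ u, w u) + Wc) / ∫ z, pk ρ z := by
      intro u
      rw [← uav_sub (lH 0) (lH N)]
      exact uav_le hρ hA0 l3 hoff u
    have h2 : ∑ u, (uav ρ (Fc T w (H 0)) u - uav ρ (Fc T w (H N)) u) ≤
        (∑ u, w u) + Wc := by
      refine (Finset.sum_le_sum fun u _ => h1 u).trans ?_
      rw [Finset.sum_const, Finset.card_univ, nsmul_eq_mul, mul_div_assoc',
        div_le_iff₀ hA0, mul_comm]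
      exact mul_le_mul_of_nonneg_left hA (by linarith)
    rw [Finset.sum_sub_distrib] at h2
    have h3 := mul_le_mul_of_nonneg_left hI (Nat.cast_nonneg h : (0 : ℝ) ≤ h)
    nlinarith
  -- movement
  have hmove : ∀ t, transport (cutDist T w) (x t) (x (t + 1)) ≤
      2 * ρ * (JJ ρ T w h (H t) - JJ ρ T w h (H (t + 1))) -
        (Psi T w (x (t + 1)) - Psi T w (x t)) := fun t =>
    move_step hc hρ hZ hh (gH t) (fun i => pen_phi ((r t).nonneg i))
  have hmove2 : ∀ t, transport (cutDist T w) (a t) (a (t + 1)) ≤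
      transport (cutDist T w) (x t) (x (t + 1)) + 3 * ((1 / 2) ^ (t + 1) * ∑ u, w u) := by
    intro t
    have tri := @transport_triangle M _ (cutDist T w) hD (cutDist_triangle hc.nonneg)
    have h1 := tri (ma t) (mx t) (ma (t + 1))
    have h2 := tri (mx t) (mx (t + 1)) (ma (t + 1))
    have h3 := dist_al hc hρ hZ hM hx r t
    have h4 := dist_al hc hρ hZ hM hx r (t + 1)
    rw [transport_symm cutDist_symm] at h3
    have h5 : ((1 : ℝ) / 2) ^ t = 2 * (1 / 2) ^ (t + 1) := by rw [pow_succ]; ring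
    rw [h5] at h3
    linarith
  have hserv : ∀ t, ∑ i, (r t).cost i (a (t + 1) i) ≤
      vav ρ (Fc T w (H t)) - vav ρ (Fc T w (H (t + 1))) + (1 / 2) ^ (t + 1) := by
    intro t
    have h1 := serv_step hc hρ hZ hM (gH t) (r t) (epsT_pos hM (r t) t)
      (epsT_le_one hM (r t) t)
    have h2 := epsT_mul_le hM (r t) t
    refine h1.trans ?_
    exact add_le_add le_rfl h2
  have hstep : ∀ t, transport (cutDist T w) (a t) (a (t + 1)) +
      ∑ i, (r t).cost i (a (t + 1) i) ≤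
      (2 * ρ * JJ ρ T w h (H t) + Psi T w (x t) + vav ρ (Fc T w (H t))) -
      (2 * ρ * JJ ρ T w h (H (t + 1)) + Psi T w (x (t + 1)) + vav ρ (Fc T w (H (t + 1)))) +
      (3 * (∑ u, w u) + 1) * (1 / 2) ^ (t + 1) := by
    intro t
    have h1 := hmove t
    have h2 := hmove2 t
    have h3 := hserv t
    linarith
  have hsum : totalCost (cutDist T w) r N a ≤
      (2 * ρ * JJ ρ T w h (H 0) + Psi T w (x 0) + vav ρ (Fc T w (H 0))) -
      (2 * ρ * JJ ρ T w h (H N) + Psi T w (x N) + vav ρ (Fc T w (H N))) +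
      (3 * (∑ u, w u) + 1) * ∑ t ∈ range N, (1 / 2) ^ (t + 1) := by
    unfold totalCost
    refine (Finset.sum_le_sum fun t _ => hstep t).trans (le_of_eq ?_)
    rw [Finset.sum_add_distrib, ← Finset.mul_sum, Finset.sum_range_sub']
  have h1 : totalCost (cutDist T w) r N ((algo hc hρ hZ hM hx).alloc r) =
      totalCost (cutDist T w) r N a := rfl
  rw [h1]
  refine hsum.trans ?_
  have h2 := sum_half_pow_le N
  have h3 : (3 * (∑ u, w u) + 1) * ∑ t ∈ range N, ((1 : ℝ) / 2) ^ (t + 1) ≤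
      (3 * (∑ u, w u) + 1) * 1 := mul_le_mul_of_nonneg_left h2 (by linarith)
  have h4 := Psi_nonneg (T := T) hc.nonneg (mx N)
  have h5 := Psi_le (T := T) hc.nonneg (mx 0)
  have h6 := mul_le_mul_of_nonneg_left hJ (by linarith : 0 ≤ 2 * ρ)
  nlinarith

end Pool.Agent.Lib37.MAP
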