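import Mathlib

/-!
Conjugates of one-variable cost functions.
-/

namespace Pool.Agent.Lib37.MAP

open Set

/-- the conjugate `b ↦ sup_{s ∈ [0,1]} (-bs - c(s))` -/
noncomputable def phi (c : ℝ → ℝ) (b : ℝ) : ℝ :=
  ⨆ s : Set.Icc (0 : ℝ) 1, (-(b * (s : ℝ)) - c s)

section phi

variable {c : ℝ → ℝ}

lemma phi_bdd (hc : ∀ s ∈ Set.Icc (0 : ℝ) 1, 0 ≤ c s) (b : ℝ) :
    BddAbove (Set.range fun s : Set.Icc (0 : ℝ) 1 => (-(b * (s : ℝ)) - c s)) := by
  refine ⟨|b|, ?_⟩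
  rintro _ ⟨s, rfl⟩
  have h0 := s.2.1
  have h1 := s.2.2
  have h2 := hc s s.2
  have h3 : -(b * (s : ℝ)) ≤ |b| := by
    have h4 : |b * (s : ℝ)| ≤ |b| := by
      rw [abs_mul, abs_of_nonneg h0]
      exact mul_le_of_le_one_right (abs_nonneg _) h1
    exact (neg_le_abs _).trans h4
  simp only
  linarith

lemma le_phi (hc : ∀ s ∈ Set.Icc (0 : ℝ) 1, 0 ≤ c s) (b : ℝ) {s : ℝ}
    (hs : s ∈ Set.Icc (0 : ℝ) 1) : -(b * s) - c s ≤ phi c b :=
  le_ciSup (phi_bdd hc b) (⟨s, hs⟩ : Set.Icc (0 : ℝ) 1)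

lemma phi_le {b B : ℝ} (h : ∀ s ∈ Set.Icc (0 : ℝ) 1, -(b * s) - c s ≤ B) : phi c b ≤ B := by
  haveI : Nonempty (Set.Icc (0 : ℝ) 1) := ⟨⟨0, by simp⟩⟩
  exact ciSup_le fun s => h s s.2

lemma phi_nonpos (hc : ∀ s ∈ Set.Icc (0 : ℝ) 1, 0 ≤ c s) {b : ℝ} (hb : 0 ≤ b) :
    phi c b ≤ 0 := by
  refine phi_le fun s hs => ?_
  have h1 := mul_nonneg hb hs.1
  have h2 := hc s hs
  linarith

lemma phi_lower (hc : ∀ s ∈ Set.Icc (0 : ℝ) 1, 0 ≤ c s) (b : ℝ) : -c 0 ≤ phi c b := by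
  have h := le_phi hc b (s := 0) (by simp)
  simpa using h

lemma phi_antitone (hc : ∀ s ∈ Set.Icc (0 : ℝ) 1, 0 ≤ c s) : Antitone (phi c) := by
  intro b b' hb
  refine phi_le fun s hs => ?_
  have h1 := le_phi hc b hs
  have h2 := mul_le_mul_of_nonneg_right hb hs.1
  linarith

lemma phi_convex (hc : ∀ s ∈ Set.Icc (0 : ℝ) 1, 0 ≤ c s) : ConvexOn ℝ Set.univ (phi c) := by
  refine ⟨convex_univ, ?_⟩
  intro a _ b _ p q hp hq hpq
  refine phi_le fun s hs => ?_
  have h1 := mul_le_mul_of_nonneg_left (le_phi hc a hs) hp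
  have h2 := mul_le_mul_of_nonneg_left (le_phi hc b hs) hq
  simp only [smul_eq_mul]
  have h3 : c s = (p + q) * c s := by rw [hpq, one_mul]
  nlinarith

end phi

/-- abstract properties of the penalty functions `phi` -/
structure Pen (f : ℝ → ℝ) : Prop where
  anti : Antitone f
  conv : ConvexOn ℝ Set.univ f
  lower : ∃ K : ℝ, ∀ b, -K ≤ f b
  nonpos : ∀ b, 0 ≤ b → f b ≤ 0

lemma pen_phi {c : ℝ → ℝ} (hc : ∀ s ∈ Set.Icc (0 : ℝ) 1, 0 ≤ c s) : Pen (phi c) :=
  ⟨phi_antitone hc, phi_convex hc, ⟨c 0, phi_lower hc⟩, fun _ hb => phi_nonpos hc hb⟩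

lemma pen_zero : Pen (fun _ => (0 : ℝ)) :=
  ⟨fun _ _ _ => le_rfl, ⟨convex_univ, by intro a _ b _ p q _ _ _; simp⟩, ⟨0, by simp⟩,
    fun _ _ => le_rfl⟩

/-- four point inequality for convex functions -/
lemma convex_four {f : ℝ → ℝ} (hf : ConvexOn ℝ Set.univ f) {p q r s : ℝ} (hpq : p ≤ q)
    (hpr : p ≤ r) (hsum : q + r = p + s) : f q + f r ≤ f p + f s := by
  have hqs : q ≤ s := by linarith
  have hrs : r ≤ s := by linarith
  rcases eq_or_lt_of_le (hpq.trans hqs) with h | h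
  · have h1 : q = p := le_antisymm (by linarith) hpq
    have h2 : r = p := le_antisymm (by linarith) hpr
    rw [h1, h2, ← h]
  · -- `q = λ p + (1-λ) s`
    set l : ℝ := (s - q) / (s - p) with hl
    have hsp : 0 < s - p := by linarith
    have hl0 : 0 ≤ l := div_nonneg (by linarith) hsp.le
    have hl1 : l ≤ 1 := by
      rw [hl, div_le_one hsp]; linarith
    have hmul : l * (s - p) = s - q := by
      rw [hl]; field_simp
    have hq : l * p + (1 - l) * s = q := by linarith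
    have hr : (1 - l) * p + l * s = r := by linarith
    have h1 := hf.2 (Set.mem_univ p) (Set.mem_univ s) hl0 (by linarith : 0 ≤ 1 - l) (by ring)
    have h2 := hf.2 (Set.mem_univ p) (Set.mem_univ s) (by linarith : 0 ≤ 1 - l) hl0 (by ring)
    simp only [smul_eq_mul] at h1 h2
    rw [hq] at h1
    rw [hr] at h2
    linarith

/-- submodularity of `(a, α) ↦ f (a - α)` -/
lemma convex_sub_sup_inf {f : ℝ → ℝ} (hf : ConvexOn ℝ Set.univ f) (a a' α α' : ℝ) :
    f (a ⊔ a' - α ⊔ α') + f (a ⊓ a' - α ⊓ α') ≤ f (a - α) + f (a' - α') := by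
  rcases le_total a a' with h | h <;> rcases le_total α α' with h' | h'
  · rw [sup_eq_right.2 h, sup_eq_right.2 h', inf_eq_left.2 h, inf_eq_left.2 h']
    linarith
  · rw [sup_eq_right.2 h, sup_eq_left.2 h', inf_eq_left.2 h, inf_eq_right.2 h']
    have := convex_four hf (p := a - α) (q := a' - α) (r := a - α') (s := a' - α')
      (by linarith) (by linarith) (by ring)
    linarith
  · rw [sup_eq_left.2 h, sup_eq_right.2 h', inf_eq_right.2 h, inf_eq_left.2 h']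
    have := convex_four hf (p := a' - α') (q := a - α') (r := a' - α) (s := a - α)
      (by linarith) (by linarith) (by ring)
    linarith
  · rw [sup_eq_left.2 h, sup_eq_left.2 h', inf_eq_right.2 h, inf_eq_right.2 h']

end Pool.Agent.Lib37.MAP
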